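import Mathlib
import Pool.Agent.OmegaOdd.Struct

set_option autoImplicit false
set_option linter.unusedSectionVars false
set_option linter.unusedVariables false
set_option linter.style.haveILetI false
set_option linter.unusedSimpArgs false
set_option linter.unnecessarySeqFocus false

/-! Quadratic spaces in odd characteristic: reflections and Siegel transformations. -/

namespace Pool.Agent.OmegaPlus

open Module Pool.Agent.OmegaEven Pool.Agent.OmegaOdd
open scoped commutatorElement

variable {F V : Type*} [Field F] [AddCommGroup V] [Module F V] (S : QSp F V)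

theorem Qz : S.Q 0 = 0 := by
  have h := S.smul 0 0
  simpa using h

theorem Qneg (x : V) : S.Q (-x) = S.Q x := by
  have h := S.smul (-1) x
  rw [neg_one_smul] at h
  rw [h]; ring

/-- orthogonal complement of a subspace -/
def perp (W : Submodule F V) : Submodule F V where
  carrier := {x | ∀ w ∈ W, S.B x w = 0}
  add_mem' := by
    intro a b ha hb w hw
    rw [map_add, LinearMap.add_apply, ha w hw, hb w hw, add_zero]
  zero_mem' := by
    intro w hw
    rw [map_zero, LinearMap.zero_apply]
  smul_mem' := by
    intro c x hx w hw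
    rw [map_smul, LinearMap.smul_apply, hx w hw, smul_zero]

theorem mem_perp {W : Submodule F V} {x : V} : x ∈ perp S W ↔ ∀ w ∈ W, S.B x w = 0 := Iff.rfl

theorem B_inj : Function.Injective S.B := by
  intro a b hab
  rw [← sub_eq_zero]
  apply S.nd
  intro y
  rw [map_sub, hab, sub_self, LinearMap.zero_apply]

theorem finrank_perp [FiniteDimensional F V] (W : Submodule F V) :
    finrank F (perp S W) + finrank F W = finrank F V := by
  have h1 : Module.finrank F V = Module.finrank F (V →ₗ[F] F) :=
    (Subspace.dual_finrank_eq (K := F) (V := V)).symm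
  have hb : Function.Bijective S.B :=
    ⟨B_inj S, (LinearMap.injective_iff_surjective_of_finrank_eq_finrank h1).1 (B_inj S)⟩
  let e : V ≃ₗ[F] (V →ₗ[F] F) := LinearEquiv.ofBijective S.B hb
  have h2 : perp S W = (W.dualAnnihilator).comap e.toLinearMap := by
    ext x
    rw [mem_perp, Submodule.mem_comap, Submodule.mem_dualAnnihilator]
    rfl
  have h3 := Subspace.finrank_add_finrank_dualAnnihilator_eq W
  rw [h2, ← h3, add_comm]
  congr 1
  have h4 : (W.dualAnnihilator).comap e.toLinearMap = (W.dualAnnihilator).map e.symm.toLinearMap :=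
    (Submodule.map_equiv_eq_comap_symm e.symm _).symm
  rw [h4]
  exact LinearEquiv.finrank_map_eq e.symm _

theorem perp_perp [FiniteDimensional F V] (W : Submodule F V) : perp S (perp S W) = W := by
  symm
  apply Submodule.eq_of_le_of_finrank_eq
  · intro x hx w hw
    rw [Bsymm]
    exact hw x hx
  · have h1 := finrank_perp S W
    have h2 := finrank_perp S (perp S W)
    omega

theorem exists_B_one {u : V} (hu : u ≠ 0) : ∃ x, S.B x u = 1 := by
  by_contra hcon
  push Not at hcon
  apply hu
  apply S.nd
  intro y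
  by_contra hy
  apply hcon ((S.B u y)⁻¹ • y)
  rw [map_smul, LinearMap.smul_apply, Bsymm S y u, smul_eq_mul, inv_mul_cancel₀ hy]

/-- two-dimensional duality -/
theorem exists_dual {u v : V} (hu : u ≠ 0) (hv : ∀ c : F, v ≠ c • u) :
    ∃ x, S.B x u = 0 ∧ S.B x v = 1 := by
  obtain ⟨y, hy⟩ := exists_B_one S hu
  have hw : v - S.B y v • u ≠ 0 := fun h => hv _ (sub_eq_zero.1 h)
  obtain ⟨z, hz⟩ := exists_B_one S hw
  refine ⟨z - S.B z u • y, ?_, ?_⟩
  · rw [map_sub, map_smul, LinearMap.sub_apply, LinearMap.smul_apply, hy]; simp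
  · rw [map_sub, map_smul, LinearMap.sub_apply, LinearMap.smul_apply, smul_eq_mul]
    rw [map_sub, map_smul, smul_eq_mul] at hz
    linear_combination hz

variable (h2 : (2 : F) ≠ 0)
include h2

theorem Q_of_B {x y : V} (h : S.B x x = S.B y y) : S.Q x = S.Q y := by
  rw [Bself, Bself] at h
  exact mul_left_cancel₀ h2 h

theorem Q_zero_of_B {x : V} (h : S.B x x = 0) : S.Q x = 0 := by
  rw [Bself] at h
  exact (mul_eq_zero.1 h).resolve_left h2

omit h2 in
theorem B_zero_of_Q {x : V} (h : S.Q x = 0) : S.B x x = 0 := by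
  rw [Bself, h, mul_zero]

omit h2 in
/-- on a totally singular subspace the bilinear form vanishes -/
theorem B_zero_of_ts {W : Submodule F V} (hW : ∀ x ∈ W, S.Q x = 0) {x y : V} (hx : x ∈ W)
    (hy : y ∈ W) : S.B x y = 0 := by
  have h := S.add x y
  rw [hW x hx, hW y hy, hW _ (W.add_mem hx hy)] at h
  linear_combination -h

/-- a subspace of dimension more than half contains a nonsingular vector -/
theorem exists_ns [FiniteDimensional F V] {W : Submodule F V}
    (hW : finrank F V < 2 * finrank F W) : ∃ a ∈ W, S.Q a ≠ 0 := by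
  by_contra hcon
  push Not at hcon
  have h1 : W ≤ perp S W := fun x hx w hw => B_zero_of_ts S hcon hx hw
  have h3 := Submodule.finrank_mono h1
  have h4 := finrank_perp S W
  omega

omit h2 in
theorem finrank_span_pair_le (u v : V) : finrank F (Submodule.span F ({u, v} : Set V)) ≤ 2 := by
  classical
  have h1 := finrank_span_finset_le_card (R := F) ({u, v} : Finset V)
  have h2 : (({u, v} : Finset V) : Set V) = {u, v} := by simp
  rw [Set.finrank, h2] at h1
  exact h1.trans Finset.card_le_two

/-- a nonsingular vector orthogonal to two given vectors -/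
theorem exists_ns_perp [FiniteDimensional F V] (hV : 4 < finrank F V) (u v : V) :
    ∃ a, S.Q a ≠ 0 ∧ S.B a u = 0 ∧ S.B a v = 0 := by
  have h1 := finrank_span_pair_le (F := F) u v
  have h3 := finrank_perp S (Submodule.span F ({u, v} : Set V))
  obtain ⟨a, ha, hQ⟩ := exists_ns S h2 (W := perp S (Submodule.span F ({u, v} : Set V)))
    (by omega)
  exact ⟨a, hQ, ha u (Submodule.subset_span (by simp)), ha v (Submodule.subset_span (by simp))⟩

/-! ### Reflections -/

omit h2 in
theorem refl_aux (a x : V) :
    (x - ((S.Q a)⁻¹ * S.B x a) • a) -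
      ((S.Q a)⁻¹ * S.B (x - ((S.Q a)⁻¹ * S.B x a) • a) a) • a = x := by
  rw [map_sub, map_smul, LinearMap.sub_apply, LinearMap.smul_apply, Bself, smul_eq_mul]
  by_cases h : S.Q a = 0
  · rw [h]; simp
  · match_scalars
    · ring
    · field_simp
      ring

/-- reflections -/
noncomputable def refl (a : V) : V ≃ₗ[F] V :=
  LinearEquiv.ofInvolutive (LinearMap.id - (S.Q a)⁻¹ • (S.B.flip a).smulRight a) (by
    intro x
    have h := refl_aux S a x
    simp only [LinearMap.sub_apply, LinearMap.id_apply, LinearMap.smul_apply,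
      LinearMap.smulRight_apply, LinearMap.flip_apply, smul_smul] at h ⊢
    exact h)

omit h2 in
theorem refl_apply (a x : V) : refl S a x = x - ((S.Q a)⁻¹ * S.B x a) • a := by
  change x - (S.Q a)⁻¹ • (S.B x a • a) = _
  rw [smul_smul]

omit h2 in
theorem refl_refl (a x : V) : refl S a (refl S a x) = x := by
  rw [refl_apply, refl_apply]; exact refl_aux S a x

omit h2 in
theorem refl_inv (a : V) : (refl S a)⁻¹ = refl S a := by
  rw [inv_eq_iff_mul_eq_one]
  ext x
  exact refl_refl S a x

omit h2 in
theorem refl_mem (a : V) : refl S a ∈ S.O := by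
  intro x
  have h1 : refl S a x = x + (-((S.Q a)⁻¹ * S.B x a)) • a := by
    rw [refl_apply, neg_smul, sub_eq_add_neg]
  rw [h1, S.add, S.smul, map_smul, smul_eq_mul]
  by_cases h : S.Q a = 0
  · rw [h]; simp
  · field_simp
    ring

omit h2 in
theorem refl_neg (a : V) : refl S (-a) = refl S a := by
  ext x
  rw [refl_apply, refl_apply, Qneg, map_neg]
  simp

omit h2 in
theorem conj_refl {g : V ≃ₗ[F] V} (hg : g ∈ S.O) (a : V) :
    g * refl S a * g⁻¹ = refl S (g a) := by
  ext x
  rw [mul_apply', mul_apply', refl_apply, refl_apply, map_sub, apply_inv_self', map_smul, hg]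
  congr 3
  rw [← S.O_B hg, apply_inv_self']

omit h2 in
theorem refl_refl_mem_of_map {g : V ≃ₗ[F] V} (hg : g ∈ S.O) (a : V) :
    refl S a * refl S (g a) ∈ S.Om := by
  have h1 : refl S a * refl S (g a) = ⁅refl S a, g⁆ := by
    rw [← conj_refl S hg a, commutatorElement_def, refl_inv]
    group
  rw [h1]
  exact Subgroup.commutator_mem_commutator (refl_mem S a) hg

theorem refl_refl_mem {a b : V} (ha : S.Q a ≠ 0) (hab : S.Q a = S.Q b) :
    refl S a * refl S b ∈ S.Om := by
  have e1 : S.Q (a - b) = 2 * S.Q a - S.B a b := by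
    rw [sub_eq_add_neg, S.add, Qneg, map_neg, ← hab]; ring
  have e2 : S.Q (a + b) = 2 * S.Q a + S.B a b := by
    rw [S.add, ← hab]; ring
  by_cases h : S.Q (a - b) = 0
  · -- then `Q (a + b) ≠ 0`
    have h3 : S.Q (a + b) ≠ 0 := by
      intro h3
      apply ha
      have h4 : (2 * 2) * S.Q a = 0 := by linear_combination h + h3 - e1 - e2
      exact (mul_eq_zero.1 h4).resolve_left (mul_ne_zero h2 h2)
    have h4 : refl S (a + b) a = -b := by
      rw [refl_apply]
      have h5 : S.B a (a + b) = S.Q (a + b) := by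
        rw [map_add, Bself, e2]
      rw [h5, inv_mul_cancel₀ h3, one_smul]; abel
    have h5 := refl_refl_mem_of_map S (refl_mem S (a + b)) a
    rw [h4, refl_neg] at h5
    exact h5
  · have h4 : refl S (a - b) a = b := by
      rw [refl_apply]
      have h5 : S.B a (a - b) = S.Q (a - b) := by
        rw [map_sub, Bself, e1]
      rw [h5, inv_mul_cancel₀ h, one_smul]; abel
    have h5 := refl_refl_mem_of_map S (refl_mem S (a - b)) a
    rw [h4] at h5
    exact h5

/-! ### Siegel transformations -/

omit h2 in
/-- the Siegel transformation as a function -/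
def sg (u v x : V) : V := x + S.B x u • v - S.B x v • u - (S.Q v * S.B x u) • u

omit h2 in
theorem sg_add (u v x y : V) : sg S u v (x + y) = sg S u v x + sg S u v y := by
  simp only [sg, map_add, LinearMap.add_apply]; module

omit h2 in
theorem sg_smul (u v : V) (c : F) (x : V) : sg S u v (c • x) = c • sg S u v x := by
  simp only [sg, map_smul, LinearMap.smul_apply, smul_eq_mul]; module

omit h2 in
theorem sg_sg {u v : V} (hu : S.Q u = 0) (huv : S.B u v = 0) (x : V) :
    sg S u (-v) (sg S u v x) = x := by
  have huv' : S.B v u = 0 := by rw [Bsymm]; exact huv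
  have huu : S.B u u = 0 := B_zero_of_Q S hu
  have hvv : S.B v v = 2 * S.Q v := Bself S v
  simp only [sg, map_add, map_sub, map_smul, LinearMap.add_apply, LinearMap.sub_apply,
    LinearMap.smul_apply, smul_eq_mul, map_neg, Qneg, huv, huv', huu, hvv]
  module

omit h2 in
/-- the Siegel transformation -/
def SE (u v : V) (hu : S.Q u = 0) (huv : S.B u v = 0) : V ≃ₗ[F] V where
  toFun := sg S u v
  invFun := sg S u (-v)
  map_add' := sg_add S u v
  map_smul' := sg_smul S u v
  left_inv := sg_sg S hu huv
  right_inv := fun x => by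
    have h := sg_sg S (u := u) (v := -v) hu (by rw [map_neg, huv, neg_zero]) x
    rwa [neg_neg] at h

omit h2 in
theorem SE_apply (u v : V) (hu : S.Q u = 0) (huv : S.B u v = 0) (x : V) :
    SE S u v hu huv x = x + S.B x u • v - S.B x v • u - (S.Q v * S.B x u) • u := rfl

omit h2 in
theorem siegel_ns {u v : V} (hu : S.Q u = 0) (huv : S.B u v = 0) (hv : S.Q v ≠ 0) :
    SE S u v hu huv = refl S v * refl S (v + S.Q v • u) := by
  have huv' : S.B v u = 0 := by rw [Bsymm]; exact huv
  have huu : S.B u u = 0 := B_zero_of_Q S hu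
  have hvv : S.B v v = 2 * S.Q v := Bself S v
  have h1 : S.Q (v + S.Q v • u) = S.Q v := by
    rw [S.add, S.smul, hu, map_smul, huv']; simp
  ext x
  rw [mul_apply', SE_apply, refl_apply, refl_apply, h1]
  simp only [map_add, map_sub, map_smul, LinearMap.add_apply, LinearMap.sub_apply,
    LinearMap.smul_apply, smul_eq_mul, huv, huv', huu, hvv]
  match_scalars <;> field_simp <;> ring

theorem siegel_ns_mem {u v : V} (hu : S.Q u = 0) (huv : S.B u v = 0) (hv : S.Q v ≠ 0) :
    SE S u v hu huv ∈ S.Om := by
  rw [siegel_ns S hu huv hv]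
  apply refl_refl_mem S h2 hv
  have huv' : S.B v u = 0 := by rw [Bsymm]; exact huv
  rw [S.add, S.smul, hu, map_smul, huv']; simp

omit h2 in
theorem SE_mul {u v w : V} (hu : S.Q u = 0) (huv : S.B u v = 0) (huw : S.B u w = 0) :
    SE S u v hu huv * SE S u w hu huw =
      SE S u (v + w) hu (by rw [map_add, huv, huw, add_zero]) := by
  have huv' : S.B v u = 0 := by rw [Bsymm]; exact huv
  have huw' : S.B w u = 0 := by rw [Bsymm]; exact huw
  have huu : S.B u u = 0 := B_zero_of_Q S hu
  have hwv : S.B w v = S.B v w := Bsymm S w v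
  ext x
  rw [mul_apply', SE_apply, SE_apply, SE_apply, S.add]
  simp only [map_add, map_sub, map_smul, LinearMap.add_apply, LinearMap.sub_apply,
    LinearMap.smul_apply, smul_eq_mul, huv, huv', huu, huw, huw', hwv]
  module

/-- every Siegel transformation is in the commutator subgroup -/
theorem siegel_mem [FiniteDimensional F V] (hV : 4 < finrank F V) {u v : V} (hu : S.Q u = 0)
    (huv : S.B u v = 0) : SE S u v hu huv ∈ S.Om := by
  by_cases hv : S.Q v = 0
  · obtain ⟨w, hw, hwu, hwv⟩ := exists_ns_perp S h2 hV u v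
    have huw : S.B u w = 0 := by rw [Bsymm]; exact hwu
    have h3 : S.B u (v - w) = 0 := by rw [map_sub, huv, huw, sub_zero]
    have h4 : S.Q (v - w) = S.Q w := by
      rw [sub_eq_add_neg, S.add, hv, Qneg, map_neg, Bsymm, hwv]; ring
    have h5 := SE_mul S hu huw h3
    have h6 : SE S u (w + (v - w)) hu (by rw [map_add, huw, h3, add_zero]) =
        SE S u v hu huv := by
      ext x
      rw [SE_apply, SE_apply, add_sub_cancel]
    rw [← h6, ← h5]
    exact S.Om.mul_mem (siegel_ns_mem S h2 hu huw hw)
      (siegel_ns_mem S h2 hu h3 (by rw [h4]; exact hw))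
  · exact siegel_ns_mem S h2 hu huv hv

omit h2 in
/-- Siegel transformations are not scalars -/
theorem SE_not_scalar {u v : V} (hu : S.Q u = 0) (huv : S.B u v = 0) (hu0 : u ≠ 0)
    (hv : ∀ c : F, v ≠ c • u) : ¬ ActsScalar (SE S u v hu huv) := by
  rintro ⟨c, hc⟩
  have huu : S.B u u = 0 := B_zero_of_Q S hu
  have h1 := hc u
  rw [SE_apply, huu, huv] at h1
  simp only [mul_zero, zero_smul, add_zero, sub_zero] at h1
  have h3 : c = 1 := by
    have h4 : (c - 1) • u = 0 := by rw [sub_smul, one_smul, ← h1, sub_self]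
    exact sub_eq_zero.1 ((smul_eq_zero.1 h4).resolve_right hu0)
  obtain ⟨x, hx1, hx2⟩ := exists_dual S hu0 hv
  have h4 := hc x
  rw [SE_apply, hx1, hx2, h3] at h4
  simp only [mul_zero, zero_smul, add_zero, sub_zero, one_smul] at h4
  exact hu0 (sub_eq_self.1 h4)

end Pool.Agent.OmegaPlus
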