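import Mathlib
import Pool.Agent.OmegaPlus.Basic

set_option autoImplicit false
set_option linter.unusedSectionVars false
set_option linter.unusedVariables false
set_option linter.style.haveILetI false
set_option linter.unusedSimpArgs false
set_option linter.unnecessarySeqFocus false

namespace Pool.Agent.OmegaPlus

open Module Pool.Agent.OmegaEven Pool.Agent.OmegaOdd Polynomial

theorem card_odd {F : Type*} [Field F] [Fintype F] (h2 : (2 : F) ≠ 0) : Fintype.card F % 2 = 1 := by
  apply FiniteField.odd_card_of_char_ne_two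
  intro h
  apply h2
  have := ringChar.Nat.cast_ringChar (R := F)
  rw [h] at this
  exact_mod_cast this

/-- two squares represent everything -/
theorem exists_two_squares {F : Type*} [Field F] [Finite F] (h2 : (2 : F) ≠ 0) {a b : F}
    (ha : a ≠ 0) (hb : b ≠ 0) (c : F) : ∃ x y : F, a * x ^ 2 + b * y ^ 2 = c := by
  cases nonempty_fintype F
  obtain ⟨x, y, h⟩ := FiniteField.exists_root_sum_quadratic (R := F)
    (f := C a * X ^ 2 + C 0 * X + C (-c)) (g := C b * X ^ 2 + C 0 * X + C 0)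
    (degree_quadratic ha) (degree_quadratic hb) (card_odd h2)
  refine ⟨x, y, ?_⟩
  simp at h
  linear_combination h

variable {F V : Type*} [Field F] [AddCommGroup V] [Module F V] (S : QSp F V)

theorem finrank_span_one_le (u : V) : finrank F (F ∙ u) ≤ 1 := by
  by_cases h : u = 0
  · rw [h, Submodule.span_zero_singleton, finrank_bot]; exact zero_le_one
  · exact (finrank_span_singleton h).le

theorem exists_not_mem_span {W : Submodule F V} [FiniteDimensional F V] (hW : 2 ≤ finrank F W)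
    (u : V) : ∃ v ∈ W, ∀ c : F, v ≠ c • u := by
  by_contra hcon
  push Not at hcon
  have h1 : W ≤ F ∙ u := by
    intro v hv
    obtain ⟨c, hc⟩ := hcon v hv
    rw [hc]
    exact Submodule.smul_mem _ _ (Submodule.mem_span_singleton_self u)
  have h2 := Submodule.finrank_mono h1
  have h3 := finrank_span_one_le (F := F) u
  omega

/-- vectors of `W` orthogonal to a vector -/
theorem finrank_inf_perp [FiniteDimensional F V] (W : Submodule F V) (u : V) :
    finrank F W ≤ finrank F (W ⊓ perp S (F ∙ u) : Submodule F V) + 1 := by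
  have h1 := Submodule.finrank_sup_add_finrank_inf_eq W (perp S (F ∙ u))
  have h3 := finrank_perp S (F ∙ u)
  have h4 := finrank_span_one_le (F := F) u
  have h5 := Submodule.finrank_le (W ⊔ perp S (F ∙ u))
  omega

theorem mem_perp_span {x u : V} : x ∈ perp S (F ∙ u) ↔ S.B x u = 0 := by
  constructor
  · intro h
    exact h u (Submodule.mem_span_singleton_self u)
  · intro h w hw
    obtain ⟨c, rfl⟩ := Submodule.mem_span_singleton.1 hw
    rw [map_smul, h, smul_zero]

section
variable (h2 : (2 : F) ≠ 0) [Finite F] [FiniteDimensional F V]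
include h2

/-- singular vectors in subspaces of dimension three -/
theorem exists_sing {W : Submodule F V} (hW : 3 ≤ finrank F W) : ∃ u ∈ W, u ≠ 0 ∧ S.Q u = 0 := by
  by_contra hcon
  push Not at hcon
  obtain ⟨x, hxW, hx⟩ : ∃ x ∈ W, x ≠ 0 := by
    apply W.exists_mem_ne_zero_of_ne_bot
    rintro rfl
    rw [finrank_bot] at hW; omega
  have h3 := finrank_inf_perp S W x
  obtain ⟨y, hyW, hy⟩ : ∃ y ∈ W ⊓ perp S (F ∙ x), y ≠ 0 := by
    apply Submodule.exists_mem_ne_zero_of_ne_bot
    intro h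
    rw [h, finrank_bot] at h3; omega
  have h4 := finrank_inf_perp S (W ⊓ perp S (F ∙ x)) y
  obtain ⟨z, hzW, hz⟩ : ∃ z ∈ (W ⊓ perp S (F ∙ x)) ⊓ perp S (F ∙ y), z ≠ 0 := by
    apply Submodule.exists_mem_ne_zero_of_ne_bot
    intro h
    rw [h, finrank_bot] at h4; omega
  have hyx : S.B y x = 0 := (mem_perp_span S).1 hyW.2
  have hzx : S.B z x = 0 := (mem_perp_span S).1 hzW.1.2
  have hzy : S.B z y = 0 := (mem_perp_span S).1 hzW.2
  obtain ⟨a, b, hab⟩ := exists_two_squares h2 (hcon x hxW hx) (hcon y hyW.1 hy) (-S.Q z)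
  have h5 : S.Q (a • x + b • y + z) = 0 := by
    have hxy : S.B x y = 0 := by rw [Bsymm]; exact hyx
    have hxz : S.B x z = 0 := by rw [Bsymm]; exact hzx
    have hyz : S.B y z = 0 := by rw [Bsymm]; exact hzy
    rw [S.add, S.add, S.smul, S.smul]
    simp only [map_add, map_smul, LinearMap.add_apply, LinearMap.smul_apply, smul_eq_mul, hxy, hxz,
      hyz]
    linear_combination hab
  refine hcon _ (W.add_mem (W.add_mem (W.smul_mem a hxW) (W.smul_mem b hyW.1)) hzW.1.1) ?_ h5
  intro h6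
  have h7 : S.B z (a • x + b • y + z) = 0 := by rw [h6, map_zero]
  simp only [map_add, map_smul, smul_eq_mul, hzx, hzy, mul_zero, zero_add, Bself] at h7
  exact hcon z hzW.1.1 hz ((mul_eq_zero.1 h7).resolve_left h2)

/-- elements of the group which are trivial on the orthogonal complement of a 3-space -/
theorem exists_fix (hV : 4 < finrank F V) {W : Submodule F V} (hW : 3 ≤ finrank F W) :
    ∃ h ∈ S.Om, ¬ ActsScalar h ∧ ∀ x ∈ perp S W, h x = x := by
  obtain ⟨u, huW, hu0, hu⟩ := exists_sing S h2 hW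
  have h3 := finrank_inf_perp S W u
  obtain ⟨v, hvW, hv⟩ := exists_not_mem_span (F := F) (W := W ⊓ perp S (F ∙ u)) (by omega) u
  have huv : S.B u v = 0 := by rw [Bsymm]; exact (mem_perp_span S).1 hvW.2
  refine ⟨SE S u v hu huv, siegel_mem S h2 hV hu huv, SE_not_scalar S hu huv hu0 hv, ?_⟩
  intro x hx
  rw [SE_apply, hx u huW, hx v hvW.1]; simp

end

/-! ### Overgroups -/

/-- the stabiliser of a subspace -/
def stab (W : Submodule F V) : Subgroup (V ≃ₗ[F] V) where
  carrier := {g | ∀ x, g x ∈ W ↔ x ∈ W}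
  mul_mem' := by
    intro a b ha hb x
    change a (b x) ∈ W ↔ _
    rw [ha, hb]
  one_mem' := fun x => Iff.rfl
  inv_mem' := by
    intro a ha x
    rw [← ha (a⁻¹ x), apply_inv_self']

theorem mem_stab {W : Submodule F V} {g : V ≃ₗ[F] V} : g ∈ stab W ↔ ∀ x, g x ∈ W ↔ x ∈ W := Iff.rfl

theorem mem_stab_of [FiniteDimensional F V] {W : Submodule F V} {g : V ≃ₗ[F] V}
    (h : ∀ x ∈ W, g x ∈ W) : g ∈ stab W := by
  have h1 : W.map (g : V →ₗ[F] V) = W := by
    apply Submodule.eq_of_le_of_finrank_eq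
    · rintro _ ⟨x, hx, rfl⟩
      exact h x hx
    · exact LinearEquiv.finrank_map_eq g W
  intro x
  refine ⟨fun hx => ?_, h x⟩
  rw [← h1] at hx
  obtain ⟨y, hy, hyx⟩ := hx
  rwa [← g.injective hyx]

theorem scalar_le_stab [Nontrivial V] (W : Submodule F V) : scalarGroup F V ≤ stab W := by
  rintro g ⟨c, hc⟩ x
  rw [hc]
  have hc0 : c ≠ 0 := by
    rintro rfl
    obtain ⟨x, hx⟩ := exists_ne (0 : V)
    apply hx
    apply g.injective
    rw [hc, zero_smul, map_zero]
  exact W.smul_mem_iff hc0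

/-- the centraliser of a linear map -/
def centr (J : V →ₗ[F] V) : Subgroup (V ≃ₗ[F] V) where
  carrier := {g | ∀ x, g (J x) = J (g x)}
  mul_mem' := by
    intro a b ha hb x
    change a (b (J x)) = J (a (b x))
    rw [hb, ha]
  one_mem' := fun x => rfl
  inv_mem' := by
    intro a ha x
    apply a.injective
    rw [ha, apply_inv_self', apply_inv_self']

theorem mem_centr {J : V →ₗ[F] V} {g : V ≃ₗ[F] V} : g ∈ centr J ↔ ∀ x, g (J x) = J (g x) := Iff.rfl

theorem scalar_le_centr (J : V →ₗ[F] V) : scalarGroup F V ≤ centr J := by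
  rintro g ⟨c, hc⟩ x
  rw [hc, hc, map_smul]

/-- a common nontrivial element in proper overgroups of `s` and `t` -/
def ObsP (s t : V ≃ₗ[F] V) : Prop :=
  ∃ k ∈ S.Om, ¬ ActsScalar k ∧
    (∃ H : Subgroup (V ≃ₗ[F] V), scalarGroup F V ≤ H ∧ k ∈ H ∧ s ∈ H ∧ ¬ S.Om ≤ H) ∧
    (∃ H : Subgroup (V ≃ₗ[F] V), scalarGroup F V ≤ H ∧ k ∈ H ∧ t ∈ H ∧ ¬ S.Om ≤ H)

section
variable (h2 : (2 : F) ≠ 0) [FiniteDimensional F V] (hV : 4 < finrank F V)
include h2 hV

/-- a hyperbolic partner -/
theorem exists_partner {u : V} (hu0 : u ≠ 0) (hu : S.Q u = 0) :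
    ∃ v, S.Q v = 0 ∧ S.B v u = 1 := by
  obtain ⟨y, hy⟩ := exists_B_one S hu0
  refine ⟨y + (-S.Q y) • u, ?_, ?_⟩
  · rw [S.add, S.smul, hu, map_smul, hy, smul_eq_mul]; ring
  · rw [map_add, map_smul, LinearMap.add_apply, LinearMap.smul_apply, B_zero_of_Q S hu, hy]; simp

theorem stab_aux {W : Submodule F V} (h1 : W ≠ ⊤) (hinv : S.Om ≤ stab W) {u : V}
    (hu : S.Q u = 0) : u ∈ perp S W := by
  by_contra hcon
  rw [mem_perp] at hcon
  push Not at hcon
  obtain ⟨x, hx, hxu⟩ := hcon
  rw [Bsymm] at hxu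
  -- every vector orthogonal to `u` is in `W`
  have key : ∀ v, S.B u v = 0 → S.B x u • v - S.B x v • u ∈ W ∧ (S.Q v * S.B x u) • u ∈ W := by
    intro v huv
    have huv' : S.B u (-v) = 0 := by rw [map_neg, huv, neg_zero]
    have a1 := (hinv (siegel_mem S h2 hV hu huv) x).2 hx
    have a2 := (hinv (siegel_mem S h2 hV hu huv') x).2 hx
    rw [SE_apply] at a1 a2
    rw [Qneg, map_neg] at a2
    constructor
    · have a3 := W.smul_mem (2⁻¹ : F) (W.sub_mem a1 a2)
      have e : (2⁻¹ : F) • (x + S.B x u • v - S.B x v • u - (S.Q v * S.B x u) • u -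
          (x + S.B x u • -v - -S.B x v • u - (S.Q v * S.B x u) • u)) =
          S.B x u • v - S.B x v • u := by
        match_scalars <;> field_simp <;> ring
      rwa [e] at a3
    · have a3 := W.smul_mem (2⁻¹ : F) (W.sub_mem (W.smul_mem (2 : F) hx) (W.add_mem a1 a2))
      have e : (2⁻¹ : F) • ((2 : F) • x - (x + S.B x u • v - S.B x v • u - (S.Q v * S.B x u) • u +
          (x + S.B x u • -v - -S.B x v • u - (S.Q v * S.B x u) • u))) =
          (S.Q v * S.B x u) • u := by
        match_scalars <;> field_simp <;> ring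
      rwa [e] at a3
  have huW : u ∈ W := by
    obtain ⟨v, hv, hvu, -⟩ := exists_ns_perp S h2 hV u u
    have := (key v (by rw [Bsymm]; exact hvu)).2
    exact (W.smul_mem_iff (mul_ne_zero hv hxu)).1 this
  have hsub : perp S (F ∙ u) ≤ W := by
    intro v hv
    have hv' := (mem_perp_span S).1 hv
    have h3 := W.add_mem (key v (by rw [Bsymm]; exact hv')).1 (W.smul_mem (S.B x v) huW)
    rw [sub_add_cancel] at h3
    exact (W.smul_mem_iff hxu).1 h3
  have h4 : W = perp S (F ∙ u) := by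
    symm
    apply Submodule.eq_of_le_of_finrank_le hsub
    have h5 := finrank_perp S (F ∙ u)
    have h6 := finrank_span_one_le (F := F) u
    have h7 : finrank F W < finrank F V := Submodule.finrank_lt h1
    omega
  rw [h4] at hx
  exact hxu ((mem_perp_span S).1 hx)

/-- irreducibility -/
theorem Om_irred {W : Submodule F V} (h0 : W ≠ ⊥) (h1 : W ≠ ⊤) {u : V} (hu0 : u ≠ 0)
    (hu : S.Q u = 0) : ¬ S.Om ≤ stab W := by
  intro hinv
  have hperp : perp S W ≠ ⊤ := by
    intro h
    have h3 := finrank_perp S W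
    rw [h, finrank_top] at h3
    apply h0
    exact Submodule.finrank_eq_zero.1 (by omega)
  have hinv' : S.Om ≤ stab (perp S W) := by
    intro g hg
    apply mem_stab_of
    intro x hx w hw
    have h3 := S.O_B (S.Om_le hg) x (g⁻¹ w)
    rw [apply_inv_self'] at h3
    rw [h3]
    exact hx _ ((hinv (S.Om.inv_mem hg) w).2 hw)
  obtain ⟨v, hv, hvu⟩ := exists_partner S h2 hV hu0 hu
  have h3 := stab_aux S h2 hV h1 hinv hv
  have h4 := stab_aux S h2 hV hperp hinv' hu
  rw [perp_perp] at h4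
  rw [h3 u h4] at hvu
  exact zero_ne_one hvu

/-- the centraliser of a skew map whose square is a nonsquare scalar is proper -/
theorem Om_centr {J : V →ₗ[F] V} {ν : F} (hν : ¬ IsSquare ν) (hJ : ∀ x, J (J x) = ν • x) {u : V}
    (hu0 : u ≠ 0) (hu : S.Q u = 0) : ¬ S.Om ≤ centr J := by
  intro hinv
  obtain ⟨v, hv, hvu, -⟩ := exists_ns_perp S h2 hV u u
  have huv : S.B u v = 0 := by rw [Bsymm]; exact hvu
  have huv' : S.B u (-v) = 0 := by rw [map_neg, huv, neg_zero]
  obtain ⟨x, hx⟩ := exists_B_one S hu0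
  have a1 := hinv (siegel_mem S h2 hV hu huv) x
  have a2 := hinv (siegel_mem S h2 hV hu huv') x
  rw [SE_apply, SE_apply] at a1 a2
  simp only [Qneg, map_neg, map_add, map_sub, map_smul, LinearMap.add_apply] at a1 a2
  -- add the two
  have a3 : (S.Q v * S.B (J x) u) • u = (S.Q v * S.B x u) • J u := by
    have e := congrArg₂ (fun y z : V => y + z) a1 a2
    have e1 : (2 : F) • ((S.Q v * S.B (J x) u) • u) = (2 : F) • ((S.Q v * S.B x u) • J u) := by
      rw [← sub_eq_zero] at e ⊢
      rw [← neg_eq_zero, ← e]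
      module
    exact smul_right_injective V h2 e1
  rw [hx, mul_one, mul_smul] at a3
  have a4 : J u = S.B (J x) u • u := (smul_right_injective V hv a3).symm
  have a5 := hJ u
  rw [a4, map_smul, a4, smul_smul] at a5
  have a6 : S.B (J x) u * S.B (J x) u = ν := by
    have : (S.B (J x) u * S.B (J x) u - ν) • u = 0 := by rw [sub_smul, a5, sub_self]
    exact sub_eq_zero.1 ((smul_eq_zero.1 this).resolve_right hu0)
  exact hν ⟨_, a6.symm⟩

variable [Finite F]

/-- a small invariant subspace -/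
theorem ObsP_small {s g : V ≃ₗ[F] V} {W : Submodule F V} (h0 : W ≠ ⊥)
    (hinv : ∀ x ∈ W, s x ∈ W) (hW : 2 * finrank F W + 3 ≤ finrank F V) :
    ObsP S s (g * s * g⁻¹) := by
  haveI : Nontrivial V := Module.nontrivial_of_finrank_pos (R := F) (by omega)
  obtain ⟨U, hU⟩ : ∃ U : Submodule F V, U = W ⊔ W.map (g : V →ₗ[F] V) := ⟨_, rfl⟩
  have hgW : finrank F (W.map (g : V →ₗ[F] V)) = finrank F W := LinearEquiv.finrank_map_eq g W
  have hUd : finrank F U ≤ 2 * finrank F W := by
    have := Submodule.finrank_add_le_finrank_add_finrank W (W.map (g : V →ₗ[F] V))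
    rw [hU]; omega
  have hPd := finrank_perp S U
  obtain ⟨k, hk, hks, hkf⟩ := exists_fix S h2 hV (W := perp S U) (by omega)
  rw [perp_perp] at hkf
  obtain ⟨u, -, hu0, hu⟩ := exists_sing S h2 (W := (⊤ : Submodule F V))
    (by rw [finrank_top]; omega)
  have hWtop : W ≠ ⊤ := by
    rintro rfl
    rw [finrank_top] at hW; omega
  refine ⟨k, hk, hks, ⟨stab W, scalar_le_stab W, ?_, mem_stab_of hinv,
    Om_irred S h2 hV h0 hWtop hu0 hu⟩,
    ⟨stab (W.map (g : V →ₗ[F] V)), scalar_le_stab _, ?_, ?_, Om_irred S h2 hV ?_ ?_ hu0 hu⟩⟩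
  · apply mem_stab_of
    intro x hx
    rw [hkf x (by rw [hU]; exact Submodule.mem_sup_left hx)]
    exact hx
  · apply mem_stab_of
    intro x hx
    rw [hkf x (by rw [hU]; exact Submodule.mem_sup_right hx)]
    exact hx
  · apply mem_stab_of
    rintro _ ⟨x, hx, rfl⟩
    refine ⟨s x, hinv x hx, ?_⟩
    change g (s x) = g (s (g⁻¹ (g x)))
    rw [inv_apply_self']
  · intro h
    rw [h, finrank_bot] at hgW
    exact h0 (Submodule.finrank_eq_zero.1 hgW.symm)
  · intro h
    rw [h, finrank_top] at hgW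
    omega

/-- a totally singular invariant subspace -/
theorem ObsP_sing {s g : V ≃ₗ[F] V} (hg : g ∈ S.O) {W : Submodule F V}
    (hinv : ∀ x ∈ W, s x ∈ W) (hW : 3 ≤ finrank F W) (hts : ∀ x ∈ W, S.Q x = 0) :
    ObsP S s (g * s * g⁻¹) := by
  haveI : Nontrivial V := Module.nontrivial_of_finrank_pos (R := F) (by omega)
  obtain ⟨W', hW'⟩ : ∃ W' : Submodule F V, W' = W.map (g : V →ₗ[F] V) := ⟨_, rfl⟩
  have hgW : finrank F W' = finrank F W := by rw [hW']; exact LinearEquiv.finrank_map_eq g W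
  have hts' : ∀ x ∈ W', S.Q x = 0 := by
    rw [hW']
    rintro _ ⟨x, hx, rfl⟩
    exact (hg x).trans (hts x hx)
  have h2W : 2 * finrank F W ≤ finrank F V := by
    have h3 : W ≤ perp S W := fun x hx w hw => B_zero_of_ts S hts hx hw
    have h4 := Submodule.finrank_mono h3
    have h5 := finrank_perp S W
    omega
  obtain ⟨u, huW', hu0⟩ : ∃ u ∈ W', u ≠ 0 := by
    apply Submodule.exists_mem_ne_zero_of_ne_bot
    intro h
    rw [h, finrank_bot] at hgW; omega
  have hu : S.Q u = 0 := hts' u huW'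
  have h3 := finrank_inf_perp S W u
  obtain ⟨v, hvW, hv⟩ := exists_not_mem_span (F := F) (W := W ⊓ perp S (F ∙ u)) (by omega) u
  have huv : S.B u v = 0 := by rw [Bsymm]; exact (mem_perp_span S).1 hvW.2
  have hQv : S.Q v = 0 := hts v hvW.1
  refine ⟨SE S u v hu huv, siegel_mem S h2 hV hu huv, SE_not_scalar S hu huv hu0 hv,
    ⟨stab W, scalar_le_stab W, ?_, mem_stab_of hinv, Om_irred S h2 hV ?_ ?_ hu0 hu⟩,
    ⟨stab W', scalar_le_stab _, ?_, ?_, Om_irred S h2 hV ?_ ?_ hu0 hu⟩⟩
  · apply mem_stab_of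
    intro x hx
    rw [SE_apply, B_zero_of_ts S hts hx hvW.1, hQv]
    have : x + S.B x u • v - (0 : F) • u - (0 * S.B x u) • u = x + S.B x u • v := by module
    rw [this]
    exact W.add_mem hx (W.smul_mem _ hvW.1)
  · rintro rfl
    rw [finrank_bot] at hW; omega
  · rintro rfl
    rw [finrank_top] at h2W; omega
  · apply mem_stab_of
    intro x hx
    rw [SE_apply, B_zero_of_ts S hts' hx huW', hQv]
    have : x + (0 : F) • v - S.B x v • u - (0 * 0 : F) • u = x + (-S.B x v) • u := by module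
    rw [this]
    exact W'.add_mem hx (W'.smul_mem _ huW')
  · apply mem_stab_of
    rw [hW']
    rintro _ ⟨x, hx, rfl⟩
    refine ⟨s x, hinv x hx, ?_⟩
    change g (s x) = g (s (g⁻¹ (g x)))
    rw [inv_apply_self']
  · intro h
    rw [h, finrank_bot] at hgW; omega
  · intro h
    rw [h, finrank_top] at hgW
    omega

end

end Pool.Agent.OmegaPlus
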