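import Mathlib
import Pool.Agent.OmegaPlus.Geo
import Pool.Agent.OmegaOdd.Model

set_option autoImplicit false
set_option linter.unusedSectionVars false
set_option linter.unusedVariables false
set_option linter.style.haveILetI false
set_option linter.unusedSimpArgs false
set_option linter.unnecessarySeqFocus false

namespace Pool.Agent.OmegaPlus

open Module Pool.Agent.OmegaEven Pool.Agent.OmegaOdd

/-- counting singular vectors in a space of plus type -/
theorem card_plus {F X : Type*} [Field F] [Fintype F] [AddCommGroup X] [Module F X]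
    [Fintype X] [DecidableEq F] [DecidableEq X] (S : QSp F X) (k : ℕ) (hk : 0 < k)
    (hX : finrank F X = 2 * k) (U : Submodule F X) (hU : ∀ x ∈ U, S.Q x = 0)
    (hUk : finrank F U = k) :
    (Finset.univ.filter (fun x : X => x ≠ 0 ∧ S.Q x = 0)).card =
      (Fintype.card F ^ k - 1) * (Fintype.card F ^ (k - 1) + 1) := by
  classical
  haveI : FiniteDimensional F X := Module.finite_of_finrank_pos (by omega)
  set q := Fintype.card F with hq
  have hq1 : 1 < q := Fintype.one_lt_card
  have cU : Fintype.card U = q ^ k := by rw [Module.card_eq_pow_finrank (K := F), hUk]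
  have cX : Fintype.card X = q ^ (2 * k) := by rw [Module.card_eq_pow_finrank (K := F), hX]
  have hperp : perp S U = U := by
    symm
    apply Submodule.eq_of_le_of_finrank_eq
    · intro x hx w hw
      exact B_zero_of_ts S hU hx hw
    · have := finrank_perp S U
      omega
  -- the inner count
  have hin : ∀ x : X, x ∉ U →
      (Finset.univ.filter (fun u : U => S.Q (x + u.1) = 0)).card = q ^ (k - 1) := by
    intro x hx
    let φ : U →ₗ[F] F := (S.B x).domRestrict U
    have hφ : ∀ u : U, φ u = S.B x u.1 := fun u => rfl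
    have hne : ∃ u : U, φ u ≠ 0 := by
      by_contra hcon
      push Not at hcon
      apply hx
      rw [← hperp]
      intro w hw
      exact hcon ⟨w, hw⟩
    obtain ⟨u0, hu0⟩ := hne
    have hrange : finrank F (LinearMap.range φ) = 1 := by
      have h1 : finrank F (LinearMap.range φ) ≤ 1 := by
        have := Submodule.finrank_le (LinearMap.range φ)
        rwa [finrank_self] at this
      have h2 : 0 < finrank F (LinearMap.range φ) := by
        rw [finrank_pos_iff]
        exact ⟨⟨⟨φ u0, u0, rfl⟩, 0, fun h => hu0 (congrArg Subtype.val h)⟩⟩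
      omega
    have hker := LinearMap.finrank_range_add_finrank_ker φ
    rw [hrange, hUk] at hker
    have cker : Fintype.card (LinearMap.ker φ) = q ^ (k - 1) := by
      rw [Module.card_eq_pow_finrank (K := F)]
      congr 1
      omega
    obtain ⟨u1, hu1⟩ : ∃ u1 : U, φ u1 = S.Q x := by
      refine ⟨(S.Q x * (φ u0)⁻¹) • u0, ?_⟩
      rw [map_smul, smul_eq_mul, mul_assoc, inv_mul_cancel₀ hu0, mul_one]
    rw [← cker, Fintype.card_subtype]
    refine Finset.card_bij (fun u _ => u + u1) ?_ ?_ ?_
    · intro u hu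
      rw [Finset.mem_filter] at hu ⊢
      refine ⟨Finset.mem_univ _, ?_⟩
      have h1 := hu.2
      rw [S.add, hU u.1 u.2, add_zero] at h1
      rw [LinearMap.mem_ker, map_add, hu1, hφ]
      linear_combination h1
    · intro a _ b _ hab
      exact add_right_cancel hab
    · intro u hu
      rw [Finset.mem_filter, LinearMap.mem_ker] at hu
      refine ⟨u - u1, ?_, sub_add_cancel _ _⟩
      rw [Finset.mem_filter]
      refine ⟨Finset.mem_univ _, ?_⟩
      have h2 : S.B x (u - u1).1 = -S.Q x := by
        rw [← hφ, map_sub, hu.2, hu1, zero_sub]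
      rw [S.add, hU _ (u - u1).2, h2]; ring
  -- double counting
  set Z := Finset.univ.filter (fun x : X => x ∉ U ∧ S.Q x = 0) with hZ
  have hdc : Z.card * q ^ k = (q ^ (2 * k) - q ^ k) * q ^ (k - 1) := by
    have h1 : ∑ x ∈ Finset.univ.filter (fun x : X => x ∉ U),
        (Finset.univ.filter (fun u : U => S.Q (x + u.1) = 0)).card =
        (q ^ (2 * k) - q ^ k) * q ^ (k - 1) := by
      rw [Finset.sum_congr rfl (fun x hx => hin x (Finset.mem_filter.1 hx).2), Finset.sum_const,
        smul_eq_mul]
      congr 1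
      have h2 := Finset.card_filter_add_card_filter_not (s := (Finset.univ : Finset X))
        (fun x => x ∈ U)
      have h3 : (Finset.univ.filter (fun x : X => x ∈ U)).card = q ^ k := by
        rw [← cU, Fintype.card_subtype]
      rw [h3, Finset.card_univ, cX] at h2
      omega
    have h2 : ∑ x ∈ Finset.univ.filter (fun x : X => x ∉ U),
        (Finset.univ.filter (fun u : U => S.Q (x + u.1) = 0)).card =
        ∑ u : U, (Finset.univ.filter (fun x : X => x ∉ U ∧ S.Q (x + u.1) = 0)).card := by
      simp_rw [Finset.card_filter]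
      rw [Finset.sum_comm]
      refine Finset.sum_congr rfl fun u _ => ?_
      rw [Finset.sum_filter]
      refine Finset.sum_congr rfl fun x _ => ?_
      by_cases hx : x ∈ U
      · simp [hx]
      · simp [hx]
    have h3 : ∀ u : U, (Finset.univ.filter (fun x : X => x ∉ U ∧ S.Q (x + u.1) = 0)).card =
        Z.card := by
      intro u
      refine Finset.card_bij (fun x _ => x + u.1) ?_ ?_ ?_
      · intro x hx
        rw [Finset.mem_filter] at hx
        rw [hZ, Finset.mem_filter]
        refine ⟨Finset.mem_univ _, fun h => hx.2.1 ?_, hx.2.2⟩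
        exact (U.add_mem_iff_left u.2).1 h
      · intro a _ b _ hab
        exact add_right_cancel hab
      · intro y hy
        rw [hZ, Finset.mem_filter] at hy
        refine ⟨y - u.1, ?_, sub_add_cancel _ _⟩
        rw [Finset.mem_filter]
        refine ⟨Finset.mem_univ _, fun h => hy.2.1 ?_, ?_⟩
        · have := U.add_mem h u.2
          rwa [sub_add_cancel] at this
        · rw [sub_add_cancel]
          exact hy.2.2
    rw [← h1, h2, Finset.sum_congr rfl (fun u _ => h3 u), Finset.sum_const, smul_eq_mul,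
      Finset.card_univ, cU, mul_comm]
  have hZc : Z.card = (q ^ k - 1) * q ^ (k - 1) := by
    have h1 : q ^ (2 * k) - q ^ k = q ^ k * (q ^ k - 1) := by
      rw [Nat.mul_sub, mul_one, ← pow_add, two_mul]
    have h2 : q ^ k ≠ 0 := by positivity
    apply Nat.eq_of_mul_eq_mul_right (Nat.pos_of_ne_zero h2)
    rw [hdc, h1]
    ring
  have hsplit : (Finset.univ.filter (fun x : X => x ≠ 0 ∧ S.Q x = 0)).card =
      (Finset.univ.filter (fun x : X => x ∈ U ∧ x ≠ 0)).card + Z.card := by
    rw [hZ, ← Finset.card_union_of_disjoint]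
    · congr 1
      ext x
      simp only [Finset.mem_filter, Finset.mem_univ, true_and, Finset.mem_union]
      constructor
      · rintro ⟨h1, h2⟩
        by_cases hx : x ∈ U
        · exact Or.inl ⟨hx, h1⟩
        · exact Or.inr ⟨hx, h2⟩
      · rintro (⟨h1, h2⟩ | ⟨h1, h2⟩)
        · exact ⟨h2, hU x h1⟩
        · refine ⟨?_, h2⟩
          rintro rfl
          exact h1 U.zero_mem
    · rw [Finset.disjoint_filter]
      rintro x - ⟨h1, -⟩ ⟨h2, -⟩
      exact h2 h1
  have hU0 : (Finset.univ.filter (fun x : X => x ∈ U ∧ x ≠ 0)).card = q ^ k - 1 := by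
    have h1 : (Finset.univ.filter (fun x : X => x ∈ U ∧ x ≠ 0)) =
        (Finset.univ.filter (fun x : X => x ∈ U)).erase 0 := by
      ext x
      simp only [Finset.mem_filter, Finset.mem_univ, true_and, Finset.mem_erase]
      tauto
    rw [h1, Finset.card_erase_of_mem (by simp)]
    congr 1
    rw [← cU, Fintype.card_subtype]
  rw [hsplit, hU0, hZc]
  ring

/-- the number of solutions of `x² + η y² = c` for `c ≠ 0`, when the form is anisotropic -/
theorem card_norm {K : Type*} [Field K] [Fintype K] [DecidableEq K] (h2 : (2 : K) ≠ 0) {η : K}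
    (hη : ∀ x y : K, x ^ 2 + η * y ^ 2 = 0 → x = 0 ∧ y = 0) {c : K} (hc : c ≠ 0) :
    (Finset.univ.filter (fun w : K × K => w.1 ^ 2 + η * w.2 ^ 2 = c)).card =
      Fintype.card K + 1 := by
  classical
  have hη0 : η ≠ 0 := by
    rintro rfl
    have := (hη 0 1 (by ring)).2
    exact one_ne_zero this
  have hfib : ∀ c : K, c ≠ 0 →
      (Finset.univ.filter (fun w : K × K => w.1 ^ 2 + η * w.2 ^ 2 = c)).card =
      (Finset.univ.filter (fun w : K × K => w.1 ^ 2 + η * w.2 ^ 2 = 1)).card := by
    intro c hc
    obtain ⟨a, b, hab⟩ := exists_two_squares h2 (one_ne_zero (α := K)) hη0 c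
    rw [one_mul] at hab
    symm
    refine Finset.card_bij (fun w _ => (a * w.1 - η * b * w.2, b * w.1 + a * w.2)) ?_ ?_ ?_
    · intro w hw
      rw [Finset.mem_filter] at hw ⊢
      refine ⟨Finset.mem_univ _, ?_⟩
      simp only
      linear_combination (w.1 ^ 2 + η * w.2 ^ 2) * hab + c * hw.2
    · intro w _ w' _ hww
      rw [Prod.mk.injEq] at hww
      obtain ⟨e1, e2⟩ := hww
      ext
      · apply mul_left_cancel₀ hc
        linear_combination (a * e1 + η * b * e2) - (w.1 - w'.1) * hab
      · apply mul_left_cancel₀ hc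
        linear_combination (a * e2 - b * e1) - (w.2 - w'.2) * hab
    · intro w hw
      rw [Finset.mem_filter] at hw
      refine ⟨(c⁻¹ * (a * w.1 + η * b * w.2), c⁻¹ * (a * w.2 - b * w.1)), ?_, ?_⟩
      · rw [Finset.mem_filter]
        refine ⟨Finset.mem_univ _, ?_⟩
        simp only
        have hcc : c⁻¹ * c = 1 := inv_mul_cancel₀ hc
        linear_combination (c⁻¹) ^ 2 * (w.1 ^ 2 + η * w.2 ^ 2) * hab +
          (c⁻¹) ^ 2 * c * hw.2 + (c⁻¹ * c + 1) * hcc
      · have hcc : c⁻¹ * c = 1 := inv_mul_cancel₀ hc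
        ext
        · simp only
          linear_combination c⁻¹ * w.1 * hab + w.1 * hcc
        · simp only
          linear_combination c⁻¹ * w.2 * hab + w.2 * hcc
  rw [hfib c hc]
  set n1 := (Finset.univ.filter (fun w : K × K => w.1 ^ 2 + η * w.2 ^ 2 = 1)).card with hn1
  have htot : Fintype.card K ^ 2 - 1 = (Fintype.card K - 1) * n1 := by
    have h1 : (Finset.univ.filter (fun w : K × K => w ≠ 0)).card =
        ∑ c ∈ Finset.univ.filter (fun c : K => c ≠ 0),
          ((Finset.univ.filter (fun w : K × K => w ≠ 0)).filter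
            (fun w => w.1 ^ 2 + η * w.2 ^ 2 = c)).card := by
      apply Finset.card_eq_sum_card_fiberwise
      intro w hw
      rw [Finset.mem_coe, Finset.mem_filter] at hw ⊢
      refine ⟨Finset.mem_univ _, fun h => hw.2 ?_⟩
      obtain ⟨e1, e2⟩ := hη _ _ h
      exact Prod.ext e1 e2
    have h3 : ∀ c ∈ Finset.univ.filter (fun c : K => c ≠ 0),
        ((Finset.univ.filter (fun w : K × K => w ≠ 0)).filter
            (fun w => w.1 ^ 2 + η * w.2 ^ 2 = c)).card = n1 := by
      intro c hc
      rw [Finset.mem_filter] at hc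
      rw [← hfib c hc.2, Finset.filter_filter]
      congr 1
      ext w
      simp only [Finset.mem_filter, Finset.mem_univ, true_and]
      constructor
      · exact fun h => h.2
      · intro h
        refine ⟨?_, h⟩
        rintro rfl
        apply hc.2
        rw [← h]; simp
    rw [Finset.sum_congr rfl h3, Finset.sum_const, smul_eq_mul] at h1
    have h4 : (Finset.univ.filter (fun x : K => x ≠ 0)).card = Fintype.card K - 1 := by
      have : (Finset.univ.filter (fun x : K => x ≠ 0)) = Finset.univ.erase 0 := by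
        ext x; simp
      rw [this, Finset.card_erase_of_mem (Finset.mem_univ _), Finset.card_univ]
    have h5 : (Finset.univ.filter (fun x : K × K => x ≠ 0)).card = Fintype.card K ^ 2 - 1 := by
      have : (Finset.univ.filter (fun x : K × K => x ≠ 0)) = Finset.univ.erase 0 := by
        ext x; simp
      rw [this, Finset.card_erase_of_mem (Finset.mem_univ _), Finset.card_univ, Fintype.card_prod,
        sq]
    rw [h4, h5] at h1
    exact h1
  have hKc : 1 < Fintype.card K := Fintype.one_lt_card
  obtain ⟨p, hp⟩ : ∃ p, Fintype.card K = p + 2 := ⟨Fintype.card K - 2, by omega⟩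
  rw [hp] at htot ⊢
  have h1 : (p + 2) ^ 2 - 1 = (p + 1) * (p + 3) := by
    have : (p + 2) ^ 2 = (p + 1) * (p + 3) + 1 := by ring
    omega
  have h2 : p + 2 - 1 = p + 1 := by omega
  rw [h1, h2] at htot
  exact (Nat.eq_of_mul_eq_mul_left (by omega) htot).symm

/-- a space with an irreducible isometry is not of plus type -/
theorem irr_not_plus {F X : Type*} [Field F] [Finite F] (hF2 : (2 : F) ≠ 0)
    [AddCommGroup X] [Module F X] [FiniteDimensional F X] (S : QSp F X) (s : X ≃ₗ[F] X)
    (hs : s ∈ S.O)
    (hirr : ∀ Y : Submodule F X, (∀ y ∈ Y, s y ∈ Y) → Y = ⊥ ∨ Y = ⊤)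
    {m : ℕ} (hm : 0 < m) (hme : Even m) (hX : finrank F X = 2 * m) :
    ¬ ∃ U : Submodule F X, (∀ x ∈ U, S.Q x = 0) ∧ finrank F U = m := by
  classical
  rintro ⟨U, hU, hUm⟩
  obtain ⟨L, hL1, hL2, hL3, ι, σ, Ψ, α, η, hmL, hadj, hcs, hσ, hιΨ, hα, hη, hB⟩ :=
    exists_model hF2 S s hs hirr hm hme hX
  have hL2' : (2 : L) ≠ 0 := by
    have h3 := (map_ne_zero (algebraMap F L)).2 hF2
    rwa [map_ofNat] at h3
  haveI : Finite X := Module.finite_of_finite F
  letI : Fintype F := Fintype.ofFinite F
  letI : Fintype L := Fintype.ofFinite L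
  letI : Fintype X := Fintype.ofFinite X
  have hani : ∀ x y : L, x ^ 2 + η * y ^ 2 = 0 → x = 0 ∧ y = 0 := by
    intro x y h
    by_cases hy : y = 0
    · rw [hy] at h
      refine ⟨?_, hy⟩
      simpa using h
    · exfalso
      obtain ⟨i, hi⟩ := isSquare_neg_one' (F := F) hL2' (by rw [hmL]; exact hme)
      apply hη
      refine ⟨i * x * y⁻¹, ?_⟩
      have e : i * x * y⁻¹ * (i * x * y⁻¹) = (i * i) * x ^ 2 * (y⁻¹ * y⁻¹) := by ring
      rw [e, ← hi]
      field_simp
      linear_combination h
  -- the count through the model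
  have hQ : ∀ w : L × L, S.Q (Ψ w) = 0 ↔
      Algebra.trace F L (α * (w.1 ^ 2 + η * w.2 ^ 2)) = 0 := by
    intro w
    have h3 := hB w w
    rw [Bself, ← sq, ← sq] at h3
    rw [← h3]
    constructor
    · intro h; rw [h, mul_zero]
    · intro h; exact (mul_eq_zero.1 h).resolve_left hF2
  have c1 : (Fintype.card L + 1) ∣ (Finset.univ.filter (fun x : X => x ≠ 0 ∧ S.Q x = 0)).card := by
    have h3 : (Finset.univ.filter (fun x : X => x ≠ 0 ∧ S.Q x = 0)).card =
        (Finset.univ.filter (fun w : L × L => w ≠ 0 ∧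
          Algebra.trace F L (α * (w.1 ^ 2 + η * w.2 ^ 2)) = 0)).card := by
      symm
      refine Finset.card_bij (fun w _ => Ψ w) ?_ ?_ ?_
      · intro w hw
        rw [Finset.mem_filter] at hw ⊢
        refine ⟨Finset.mem_univ _, fun h => hw.2.1 ?_, (hQ w).2 hw.2.2⟩
        exact (map_eq_zero_iff Ψ Ψ.injective).1 h
      · intro w _ w' _ h
        exact Ψ.injective h
      · intro x hx
        rw [Finset.mem_filter] at hx
        obtain ⟨w, rfl⟩ := Ψ.surjective x
        refine ⟨w, ?_, rfl⟩
        rw [Finset.mem_filter]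
        refine ⟨Finset.mem_univ _, fun h => hx.2.1 (by rw [h, map_zero]), (hQ w).1 hx.2.2⟩
    rw [h3]
    have hsum : (Finset.univ.filter (fun w : L × L => w ≠ 0 ∧
          Algebra.trace F L (α * (w.1 ^ 2 + η * w.2 ^ 2)) = 0)).card =
        ∑ c ∈ Finset.univ.filter (fun c : L => c ≠ 0 ∧ Algebra.trace F L (α * c) = 0),
          ((Finset.univ.filter (fun w : L × L => w ≠ 0 ∧
          Algebra.trace F L (α * (w.1 ^ 2 + η * w.2 ^ 2)) = 0)).filter
            (fun w => w.1 ^ 2 + η * w.2 ^ 2 = c)).card := by
      apply Finset.card_eq_sum_card_fiberwise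
      intro w hw
      rw [Finset.mem_coe, Finset.mem_filter] at hw ⊢
      refine ⟨Finset.mem_univ _, fun h => hw.2.1 ?_, hw.2.2⟩
      obtain ⟨e1, e2⟩ := hani _ _ h
      exact Prod.ext e1 e2
    rw [hsum]
    apply Finset.dvd_sum
    intro c hc
    rw [Finset.mem_filter] at hc
    rw [← card_norm hL2' hani hc.2.1, Finset.filter_filter]
    apply dvd_of_eq
    congr 1
    ext w
    simp only [Finset.mem_filter, Finset.mem_univ, true_and]
    constructor
    · intro h
      refine ⟨⟨?_, ?_⟩, h⟩
      · rintro rfl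
        apply hc.2.1
        rw [← h]; simp
      · rw [h]; exact hc.2.2
    · exact fun h => h.2
  have c2 := card_plus S m hm hX U hU hUm
  rw [c2, Module.card_eq_pow_finrank (K := F) (V := L), hmL] at c1
  have hq : 1 < Fintype.card F := Fintype.one_lt_card
  have hqo := card_odd hF2
  set q := Fintype.card F
  have hq0 : 1 ≤ q ^ m := Nat.one_le_pow _ _ (by omega)
  have h3 : (q ^ m + 1) ∣ 2 * (q ^ (m - 1) + 1) := by
    have e : (q ^ m + 1) * (q ^ (m - 1) + 1) =
        (q ^ m - 1) * (q ^ (m - 1) + 1) + 2 * (q ^ (m - 1) + 1) := by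
      rw [← add_mul]
      congr 1
      omega
    have h4 : (q ^ m + 1) ∣ (q ^ m - 1) * (q ^ (m - 1) + 1) + 2 * (q ^ (m - 1) + 1) := by
      rw [← e]; exact dvd_mul_right _ _
    exact (Nat.dvd_add_right c1).1 h4
  have h4 := Nat.le_of_dvd (by positivity) h3
  have hm2 : 2 ≤ m := by
    obtain ⟨r, hr⟩ := hme
    omega
  have h5 : q ^ m = q * q ^ (m - 1) := by
    rw [← pow_succ']
    congr 1; omega
  have h6 : 3 * q ^ (m - 1) ≤ q ^ m := by
    rw [h5]
    exact Nat.mul_le_mul_right _ (by omega)
  have h7 : q ≤ q ^ (m - 1) := Nat.le_self_pow (by omega) q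
  omega

end Pool.Agent.OmegaPlus
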