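import Mathlib
import Pool.Agent.OmegaPlus.Count

set_option autoImplicit false
set_option linter.unusedSectionVars false
set_option linter.unusedVariables false
set_option linter.style.haveILetI false
set_option linter.unusedSimpArgs false
set_option linter.unnecessarySeqFocus false

namespace Pool.Agent.OmegaPlus

open Module Pool.Agent.OmegaEven Pool.Agent.OmegaOdd

/-- a nonsquare remains a nonsquare in an extension of odd degree -/
theorem nonsquare_of_odd {F L : Type*} [Field F] [Field L] [Algebra F L] [FiniteDimensional F L]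
    (hk : Odd (finrank F L)) {ν : F} (hν : ¬ IsSquare ν) : ¬ IsSquare (algebraMap F L ν) := by
  rintro ⟨e, he⟩
  have hirr : Irreducible (Polynomial.X ^ 2 - Polynomial.C ν : Polynomial F) :=
    X_pow_sub_C_irreducible_of_prime Nat.prime_two (fun b hb => hν ⟨b, by rw [← hb, sq]⟩)
  have h1 : minpoly F e = Polynomial.X ^ 2 - Polynomial.C ν := by
    symm
    apply minpoly.eq_of_irreducible_of_monic hirr
    · simp only [map_sub, map_pow, Polynomial.aeval_X, Polynomial.aeval_C]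
      rw [he, sq, sub_self]
    · exact Polynomial.monic_X_pow_sub_C ν two_ne_zero
  have h3 := minpoly.degree_dvd (K := F) (IsIntegral.of_finite F e)
  rw [h1, Polynomial.natDegree_X_pow_sub_C] at h3
  obtain ⟨r, hr⟩ := hk
  omega

theorem isSquare_mul_of_not {L : Type*} [Field L] [Finite L] {a b : L} (ha : ¬ IsSquare a)
    (hb : ¬ IsSquare b) : IsSquare (a * b) := by
  classical
  cases nonempty_fintype L
  have ha0 : a ≠ 0 := by rintro rfl; exact ha IsSquare.zero
  have hb0 : b ≠ 0 := by rintro rfl; exact hb IsSquare.zero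
  rw [← quadraticChar_one_iff_isSquare (mul_ne_zero ha0 hb0), map_mul,
    quadraticChar_neg_one_iff_not_isSquare.2 ha, quadraticChar_neg_one_iff_not_isSquare.2 hb]
  norm_num

section
variable {F : Type*} [Field F]

/-- the dimension of a space with an irreducible isometry, and the skew square root -/
theorem exists_skew {X : Type*} [Finite F] (hF2 : (2 : F) ≠ 0) [AddCommGroup X] [Module F X]
    [FiniteDimensional F X] (S : QSp F X) (s : X ≃ₗ[F] X) (hs : s ∈ S.O)
    (hirr : ∀ Y : Submodule F X, (∀ y ∈ Y, s y ∈ Y) → Y = ⊥ ∨ Y = ⊤)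
    (h2 : 2 ≤ finrank F X) :
    ∃ k : ℕ, finrank F X = 2 * k ∧ (Odd k → ∀ ν : F, ¬ IsSquare ν →
      ∃ J : X →ₗ[F] X, (∀ x, J (J x) = ν • x) ∧ (∀ x y, S.B (J x) y = - S.B x (J y)) ∧
        ∀ x, J (s x) = s (J x)) := by
  obtain ⟨L, hL1, hL2, hL3, ι, hadj, hself, hcs, κ, D, u, hu, hικ, hκκ, hD, hskew, hspan, hind,
    hκs⟩ :=
    irr_struct_odd hF2 S s hs hirr h2
  haveI : FiniteDimensional F L := Module.Finite.of_finite
  -- the map
  let Ψ₀ : (L × L) →ₗ[F] X :=
    { toFun := fun w => ι w.1 u + ι w.2 (κ u)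
      map_add' := fun w w' => by
        simp only [Prod.fst_add, Prod.snd_add, map_add, LinearMap.add_apply]; abel
      map_smul' := fun c w => by
        simp only [Prod.smul_fst, Prod.smul_snd, map_smul, LinearMap.smul_apply, smul_add,
          RingHom.id_apply] }
  have hΨ₀ : ∀ w, Ψ₀ w = ι w.1 u + ι w.2 (κ u) := fun w => rfl
  have hinj : Function.Injective Ψ₀ := by
    rw [injective_iff_map_eq_zero]
    intro w hw
    rw [hΨ₀] at hw
    obtain ⟨h1, h2⟩ := hind _ _ hw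
    exact Prod.ext h1 h2
  have hsurj : Function.Surjective Ψ₀ := by
    intro x
    obtain ⟨a, b, hab⟩ := hspan x
    exact ⟨(a, b), hab.symm⟩
  have hX : finrank F X = 2 * finrank F L := by
    have h1 := LinearEquiv.finrank_eq (LinearEquiv.ofBijective Ψ₀ ⟨hinj, hsurj⟩)
    rw [Module.finrank_prod] at h1
    omega
  refine ⟨finrank F L, hX, fun hodd ν hν => ?_⟩
  have hνL := nonsquare_of_odd (L := L) hodd hν
  have hν0 : algebraMap F L ν ≠ 0 := fun h => hνL (h ▸ IsSquare.zero)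
  have hD0 : D ≠ 0 := fun h => hD (h ▸ IsSquare.zero)
  obtain ⟨c, hc⟩ := isSquare_mul_of_not hνL hD
  have hc0 : c ≠ 0 := by
    rintro rfl
    rw [mul_zero] at hc
    exact mul_ne_zero hν0 hD0 hc
  -- `(ν c⁻¹)² D = ν`
  obtain ⟨e, he⟩ : ∃ e : L, e * e * D = algebraMap F L ν := by
    refine ⟨algebraMap F L ν * c⁻¹, ?_⟩
    have : algebraMap F L ν * c⁻¹ * (algebraMap F L ν * c⁻¹) * D =
      algebraMap F L ν * (algebraMap F L ν * D) * (c⁻¹ * c⁻¹) := by ring
    rw [this, hc]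
    field_simp
  have hmulι : ∀ a b x, ι a (ι b x) = ι (a * b) x := fun a b x => by rw [map_mul]; rfl
  refine ⟨κ ∘ₗ ι e, ?_, ?_, ?_⟩
  · intro x
    change κ (ι e (κ (ι e x))) = _
    have e1 : e * e * D = D * e * e := by ring
    rw [hικ, hκκ, hmulι, hmulι, ← e1, he, AlgHom.commutes]
    rfl
  · intro x y
    change S.B (κ (ι e x)) y = - S.B x (κ (ι e y))
    rw [hskew, hself, hικ]
  · intro x
    change κ (ι e (s x)) = s (κ (ι e x))
    rw [hcs, hκs]

end

section
variable {F V : Type*} [Field F] [AddCommGroup V] [Module F V] (S : QSp F V)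

/-- the restriction to a nondegenerate subspace -/
def sub (W : Submodule F V) (hW : W ⊓ perp S W = ⊥) : QSp F W where
  Q := fun x => S.Q x.1
  B := S.B.domRestrict₁₂ W W
  add x y := S.add x.1 y.1
  smul c x := S.smul c x.1
  nd := by
    intro x hx
    have h : x.1 ∈ W ⊓ perp S W := ⟨x.2, fun w hw => hx ⟨w, hw⟩⟩
    rw [hW, Submodule.mem_bot] at h
    exact Subtype.ext h

theorem sub_Q (W : Submodule F V) (hW : W ⊓ perp S W = ⊥) (x : W) :
    (sub S W hW).Q x = S.Q x.1 := rfl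

theorem sub_B (W : Submodule F V) (hW : W ⊓ perp S W = ⊥) (x y : W) :
    (sub S W hW).B x y = S.B x.1 y.1 := rfl

variable [FiniteDimensional F V]

/-- the restriction of an invertible map to an invariant subspace -/
noncomputable def res (s : V ≃ₗ[F] V) (W : Submodule F V) (hs : ∀ x ∈ W, s x ∈ W) : W ≃ₗ[F] W :=
  LinearEquiv.ofInjectiveEndo ((s : V →ₗ[F] V).restrict hs) (by
    intro a b hab
    apply Subtype.ext
    apply s.injective
    exact congrArg Subtype.val hab)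

theorem res_apply (s : V ≃ₗ[F] V) (W : Submodule F V) (hs : ∀ x ∈ W, s x ∈ W) (x : W) :
    ((res s W hs x : W) : V) = s x.1 := rfl

theorem res_mem {s : V ≃ₗ[F] V} (hO : s ∈ S.O) (W : Submodule F V) (hW : W ⊓ perp S W = ⊥)
    (hs : ∀ x ∈ W, s x ∈ W) : res s W hs ∈ (sub S W hW).O := fun x => hO x.1

theorem res_irr {s : V ≃ₗ[F] V} (W : Submodule F V) (hs : ∀ x ∈ W, s x ∈ W)
    (hirr : ∀ Y : Submodule F V, Y ≤ W → (∀ y ∈ Y, s y ∈ Y) → Y = ⊥ ∨ Y = W) :
    ∀ Y : Submodule F W, (∀ y ∈ Y, res s W hs y ∈ Y) → Y = ⊥ ∨ Y = ⊤ := by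
  intro Y hY
  rcases hirr (Y.map W.subtype) (Submodule.map_subtype_le W Y) (by
    rintro _ ⟨y, hy, rfl⟩
    exact ⟨res s W hs y, hY y hy, rfl⟩) with h | h
  · left
    rw [eq_bot_iff]
    intro y hy
    have h1 : y.1 ∈ Y.map W.subtype := ⟨y, hy, rfl⟩
    rw [h, Submodule.mem_bot] at h1
    rw [Submodule.mem_bot]
    exact Subtype.ext h1
  · right
    rw [eq_top_iff]
    intro x _
    have h1 : x.1 ∈ Y.map W.subtype := by rw [h]; exact x.2
    obtain ⟨y, hy, hyx⟩ := h1
    have : y = x := Subtype.ext hyx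
    rwa [← this]

theorem perp_inv {s : V ≃ₗ[F] V} (hO : s ∈ S.O) {W : Submodule F V} (hs : ∀ x ∈ W, s x ∈ W) :
    ∀ x ∈ perp S W, s x ∈ perp S W := by
  intro x hx w hw
  have h1 := mem_stab_of hs
  have h2 : s⁻¹ w ∈ W := by
    rw [← h1 (s⁻¹ w), apply_inv_self']; exact hw
  have h3 := S.O_B hO x (s⁻¹ w)
  rw [apply_inv_self'] at h3
  rw [h3]
  exact hx _ h2

theorem structure_cases [Finite F] (hF2 : (2 : F) ≠ 0) (m : ℕ) (hm : 4 ≤ m) (hme : Even m)
    (hV : finrank F V = 2 * m) {s g : V ≃ₗ[F] V} (hs : s ∈ S.O) (hg : g ∈ S.O)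
    (hplus : ∃ U : Submodule F V, (∀ x ∈ U, S.Q x = 0) ∧ finrank F U = m) :
    ObsP S s (g * s * g⁻¹) ∨ ∃ X : Submodule F V, (∀ x ∈ X, s x ∈ X) ∧ finrank F X = m ∧
      X ⊓ perp S X = ⊥ ∧ (∀ Y : Submodule F V, Y ≤ X → (∀ y ∈ Y, s y ∈ Y) → Y = ⊥ ∨ Y = X) ∧
      (∀ Y : Submodule F V, Y ≤ perp S X → (∀ y ∈ Y, s y ∈ Y) → Y = ⊥ ∨ Y = perp S X) := by
  -- a minimal invariant subspace
  obtain ⟨W, ⟨hW0, hWs⟩, hmin⟩ : ∃ W : Submodule F V, (W ≠ ⊥ ∧ ∀ x ∈ W, s x ∈ W) ∧
      ∀ Y : Submodule F V, (Y ≠ ⊥ ∧ ∀ x ∈ Y, s x ∈ Y) → finrank F W ≤ finrank F Y := by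
    haveI : Nontrivial V := Module.nontrivial_of_finrank_pos (R := F) (by omega)
    let P : Set (Submodule F V) := {W | W ≠ ⊥ ∧ ∀ x ∈ W, s x ∈ W}
    have hP : P.Nonempty := ⟨⊤, top_ne_bot, fun x _ => trivial⟩
    refine ⟨Function.argminOn (fun W : Submodule F V => finrank F W) P hP,
      Function.argminOn_mem _ P hP, fun Y hY => ?_⟩
    exact Function.argminOn_le (fun W : Submodule F V => finrank F W) P hY
  have hcase : ∀ Y : Submodule F V, Y ≤ W → (∀ y ∈ Y, s y ∈ Y) → Y = ⊥ ∨ Y = W := by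
    intro Y hY hYs
    by_cases h : Y = ⊥
    · exact Or.inl h
    · exact Or.inr (Submodule.eq_of_le_of_finrank_le hY (hmin Y ⟨h, hYs⟩))
  have hWtop : W ≠ ⊤ := by
    rintro rfl
    refine irr_not_plus hF2 S s hs (fun Y hY => ?_) (by omega) hme hV hplus
    exact hcase Y le_top hY
  have hPd := finrank_perp S W
  have hP0 : perp S W ≠ ⊥ := by
    intro h
    rw [h, finrank_bot] at hPd
    exact hWtop (Submodule.eq_top_of_finrank_eq (by omega))
  have hPs := perp_inv S hs hWs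
  have hle := hmin _ ⟨hP0, hPs⟩
  by_cases hsmall : 2 * finrank F W + 3 ≤ finrank F V
  · exact Or.inl (ObsP_small S hF2 (by omega) hW0 hWs hsmall)
  by_cases hts : W ⊓ perp S W = ⊥
  · -- nondegenerate
    obtain ⟨k, hk, -⟩ := exists_skew hF2 (sub S W hts) (res s W hWs) (res_mem S hs W hts hWs)
      (res_irr W hWs hcase) (by omega)
    have hWm : finrank F W = m := by
      obtain ⟨r, hr⟩ := hme
      omega
    refine Or.inr ⟨W, hWs, hWm, hts, hcase, fun Y hY hYs => ?_⟩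
    by_cases h : Y = ⊥
    · exact Or.inl h
    · right
      apply Submodule.eq_of_le_of_finrank_le hY
      have := hmin Y ⟨h, hYs⟩
      omega
  · -- totally singular
    left
    have h1 : W ⊓ perp S W = W := by
      apply Submodule.eq_of_le_of_finrank_le inf_le_left
      exact hmin _ ⟨hts, fun x hx => ⟨hWs x hx.1, hPs x hx.2⟩⟩
    refine ObsP_sing S hF2 (by omega) hg hWs (by omega) fun x hx => ?_
    have h3 : x ∈ W ⊓ perp S W := by rw [h1]; exact hx
    exact Q_zero_of_B S hF2 (h3.2 x hx)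

end

end Pool.Agent.OmegaPlus
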