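import Mathlib
import Pool.Agent.OmegaPlus.Geo
import Pool.Agent.OmegaEven.Transfer

set_option autoImplicit false
set_option linter.unusedSectionVars false
set_option linter.unusedVariables false
set_option linter.style.haveILetI false
set_option linter.unusedSimpArgs false
set_option linter.unnecessarySeqFocus false

namespace Pool.Agent.OmegaPlus

open Module Pool.Agent.OmegaEven Pool.Agent.OmegaOdd

/-- a point with nonzero first coordinate on a conic -/
theorem exists_conic {R : Type*} [Field R] [Finite R] (h2 : (2 : R) ≠ 0) {ν z : R} (hν0 : ν ≠ 0)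
    (hν1 : ν ≠ 1) (hz : z ≠ 2 * ν) (hz' : z ≠ -(2 * ν)) :
    ∃ l μ : R, l ≠ 0 ∧ l ^ 2 = ν - μ * z + μ ^ 2 * ν := by
  -- reduce to `a² - ν l² = Δ`
  obtain ⟨Δ, hΔ⟩ : ∃ Δ, Δ = (2⁻¹ * z) ^ 2 - ν ^ 2 := ⟨_, rfl⟩
  have h22 : (2 : R)⁻¹ * 2 = 1 := inv_mul_cancel₀ h2
  have hΔ0 : Δ ≠ 0 := by
    intro h
    have h3 : (z - 2 * ν) * (z - -(2 * ν)) = 0 := by
      have h4 : 2 * 2 * Δ = 0 := by rw [h, mul_zero]
      rw [hΔ] at h4
      linear_combination h4 - (2⁻¹ * 2 + 1) * z ^ 2 * h22
    rcases mul_eq_zero.1 h3 with h4 | h4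
    · exact hz (sub_eq_zero.1 h4)
    · exact hz' (sub_eq_zero.1 h4)
  have key : ∃ a l : R, l ≠ 0 ∧ a ^ 2 - ν * l ^ 2 = Δ := by
    obtain ⟨a, l, hal⟩ := exists_two_squares h2 (one_ne_zero (α := R)) (neg_ne_zero.2 hν0) Δ
    by_cases hl : l = 0
    · have ha : a ^ 2 = Δ := by rw [hl] at hal; linear_combination hal
      have ha0 : a ≠ 0 := by
        rintro rfl
        apply hΔ0
        rw [← ha]; ring
      have hν1' : 1 - ν ≠ 0 := sub_ne_zero.2 (Ne.symm hν1)
      refine ⟨a * ((1 + ν) / (1 - ν)), a * (2 / (1 - ν)),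
        mul_ne_zero ha0 (div_ne_zero h2 hν1'), ?_⟩
      rw [← ha]
      field_simp
      ring
    · exact ⟨a, l, hl, by linear_combination hal⟩
  obtain ⟨a, l, hl, hal⟩ := key
  refine ⟨l, (a + 2⁻¹ * z) / ν, hl, ?_⟩
  have e1 : ν * l ^ 2 = a ^ 2 - Δ := by linear_combination -hal
  apply mul_left_cancel₀ hν0
  rw [e1, hΔ]
  field_simp
  ring

variable {F V : Type*} [Field F] [AddCommGroup V] [Module F V] (S : QSp F V)

/-- `1 + M` -/
def oneAdd (M : V →ₗ[F] V) (h : ∀ x, M (M x) = 0) : V ≃ₗ[F] V where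
  toFun x := x + M x
  invFun x := x - M x
  map_add' x y := by rw [map_add]; abel
  map_smul' c x := by rw [map_smul, RingHom.id_apply, smul_add]
  left_inv x := by
    change (x + M x) - M (x + M x) = x
    rw [map_add, h]; abel
  right_inv x := by
    change (x - M x) + M (x - M x) = x
    rw [map_sub, h]; abel

theorem oneAdd_apply (M : V →ₗ[F] V) (h : ∀ x, M (M x) = 0) (x : V) : oneAdd M h x = x + M x := rfl

/-- the map `x ↦ ∑ (B(x,u) v - B(x,v) u)` -/
def sumMap {I : Type*} (s : Finset I) (u v : I → V) : V →ₗ[F] V :=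
  ∑ i ∈ s, ((S.B.flip (u i)).smulRight (v i) - (S.B.flip (v i)).smulRight (u i))

theorem sumMap_apply {I : Type*} (s : Finset I) (u v : I → V) (x : V) :
    sumMap S s u v x = ∑ i ∈ s, (S.B x (u i) • v i - S.B x (v i) • u i) := by
  simp only [sumMap, LinearMap.sum_apply, LinearMap.sub_apply, LinearMap.smulRight_apply,
    LinearMap.flip_apply]

theorem sumMap_ts {I : Type*} (s : Finset I) (u v : I → V) {T : Submodule F V}
    (hT : ∀ x ∈ T, S.Q x = 0) (hu : ∀ i, u i ∈ T) (hv : ∀ i, v i ∈ T) {x : V} (hx : x ∈ T) :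
    sumMap S s u v x = 0 := by
  rw [sumMap_apply]
  apply Finset.sum_eq_zero
  intro i _
  rw [B_zero_of_ts S hT hx (hu i), B_zero_of_ts S hT hx (hv i)]; simp

theorem sumMap_mem {I : Type*} (s : Finset I) (u v : I → V) {T : Submodule F V}
    (hu : ∀ i, u i ∈ T) (hv : ∀ i, v i ∈ T) (x : V) :
    sumMap S s u v x ∈ T := by
  rw [sumMap_apply]
  apply Submodule.sum_mem
  intro i _
  exact T.sub_mem (T.smul_mem _ (hv i)) (T.smul_mem _ (hu i))

theorem sum_mem_Om (h2 : (2 : F) ≠ 0) [FiniteDimensional F V] (hV : 4 < finrank F V) {I : Type*}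
    (u v : I → V) {T : Submodule F V} (hT : ∀ x ∈ T, S.Q x = 0) (hu : ∀ i, u i ∈ T)
    (hv : ∀ i, v i ∈ T) (s : Finset I) :
    ∀ k : V ≃ₗ[F] V, (∀ x, k x = x + sumMap S s u v x) → k ∈ S.Om := by
  classical
  induction s using Finset.induction_on with
  | empty =>
    intro k hk
    have : k = 1 := by
      ext x
      rw [hk, sumMap_apply, Finset.sum_empty, add_zero]; rfl
    rw [this]; exact S.Om.one_mem
  | insert a s ha ih =>
    intro k hk
    have hua := hT _ (hu a)
    have huv := B_zero_of_ts S hT (hu a) (hv a)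
    have h1 : k = oneAdd (sumMap S s u v)
        (fun x => sumMap_ts S s u v hT hu hv (sumMap_mem S s u v hu hv x)) *
        SE S (u a) (v a) hua huv := by
      ext x
      rw [mul_apply', oneAdd_apply, hk, sumMap_apply, Finset.sum_insert ha, ← sumMap_apply]
      have e1 : sumMap S s u v (SE S (u a) (v a) hua huv x) = sumMap S s u v x := by
        rw [SE_apply, map_sub, map_sub, map_add, map_smul, map_smul, map_smul,
          sumMap_ts S s u v hT hu hv (hu a), sumMap_ts S s u v hT hu hv (hv a)]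
        simp
      rw [e1, SE_apply, hT _ (hv a)]
      module
    rw [h1]
    exact S.Om.mul_mem (ih _ fun x => rfl) (siegel_mem S h2 hV hua huv)

/-- a singular vector on which the two maps agree up to a sign -/
theorem easy_case (h2 : (2 : F) ≠ 0) [FiniteDimensional F V] (hV : 4 < finrank F V)
    {J J' : V →ₗ[F] V} {ν : F} (hν : ¬ IsSquare ν) (hJ : ∀ x, J (J x) = ν • x)
    (hJ' : ∀ x, J' (J' x) = ν • x) (hJs : ∀ x y, S.B (J x) y = - S.B x (J y))
    (hJs' : ∀ x y, S.B (J' x) y = - S.B x (J' y)) {x : V} (hx0 : x ≠ 0) (hx : S.Q x = 0) {e : F}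
    (he : e * e = 1) (hJJ : J' x = e • J x) :
    ∃ k ∈ S.Om, ¬ ActsScalar k ∧ (∀ y, k (J y) = J (k y)) ∧ (∀ y, k (J' y) = J' (k y)) := by
  have hν0 : ν ≠ 0 := fun h => hν (h ▸ IsSquare.zero)
  have hxx : S.B x x = 0 := B_zero_of_Q S hx
  have hJx : S.Q (J x) = 0 := by
    apply Q_zero_of_B S h2
    rw [hJs, hJ, map_smul, hxx, smul_zero, neg_zero]
  have hB : S.B (J x) x = 0 := by
    have h3 : 2 * S.B (J x) x = 0 := by
      have := hJs x x
      rw [Bsymm S x] at this
      linear_combination this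
    exact (mul_eq_zero.1 h3).resolve_left h2
  have hJx0 : J x ≠ 0 := by
    intro h
    have := hJ x
    rw [h, map_zero] at this
    exact (smul_ne_zero hν0 hx0) this.symm
  have hnc : ∀ c : F, x ≠ c • J x := by
    intro c hc
    have h3 := congrArg J hc
    rw [map_smul, hJ] at h3
    have h4 : x = (c * c * ν) • x := by
      conv_lhs => rw [hc, h3]
      rw [smul_smul, smul_smul]
    have h5 : (c * c * ν - 1) • x = 0 := by rw [sub_smul, one_smul, ← h4, sub_self]
    have h6 := sub_eq_zero.1 ((smul_eq_zero.1 h5).resolve_right hx0)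
    have hc0 : c ≠ 0 := by
      rintro rfl
      simp at h6
    apply hν
    refine ⟨c⁻¹, ?_⟩
    field_simp
    linear_combination h6
  have hJ'J : J' (J x) = (e * ν) • x := by
    have h3 : J x = e • J' x := by rw [hJJ, smul_smul, he, one_smul]
    rw [h3, map_smul, hJ', smul_smul]
  refine ⟨SE S (J x) x hJx hB, siegel_mem S h2 hV hJx hB, SE_not_scalar S hJx hB hJx0 hnc, ?_, ?_⟩
  · intro y
    rw [SE_apply, SE_apply, hx]
    simp only [map_add, map_sub, map_smul, hJs, hJ, smul_eq_mul]
    module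
  · intro y
    rw [SE_apply, SE_apply, hx]
    simp only [map_add, map_sub, map_smul, hJs', hJ'J, hJJ, smul_eq_mul]
    module

/-- the main case, over an extension field acting on a subspace -/
theorem good_case (h2 : (2 : F) ≠ 0) [FiniteDimensional F V] (hV : 4 < finrank F V)
    {J J' : V →ₗ[F] V} {ν : F} (hν : ¬ IsSquare ν) (hJ : ∀ x, J (J x) = ν • x)
    (hJ' : ∀ x, J' (J' x) = ν • x) (hJs : ∀ x y, S.B (J x) y = - S.B x (J y))
    (hJs' : ∀ x y, S.B (J' x) y = - S.B x (J' y)) {R U : Type*} [Field R] [Finite R] [Algebra F R]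
    [AddCommGroup U] [Module F U] [Module R U] [IsScalarTower F R U] [Nontrivial U]
    (i : U →ₗ[F] V) (hi : Function.Injective i) (j j' : U →ₗ[R] U) (hj : ∀ y, i (j y) = J (i y))
    (hj' : ∀ y, i (j' y) = J' (i y))
    (hself : ∀ (c : R) y w, S.B (i (c • y)) (i w) = S.B (i y) (i (c • w))) {z : R}
    (hz : ∀ y, j (j' y) + j' (j y) = z • y) (hz1 : z ≠ 2 * algebraMap F R ν)
    (hz2 : z ≠ -(2 * algebraMap F R ν)) :
    ∃ k ∈ S.Om, ¬ ActsScalar k ∧ (∀ y, k (J y) = J (k y)) ∧ (∀ y, k (J' y) = J' (k y)) := by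
  classical
  haveI : Finite F := Finite.of_injective _ (algebraMap F R).injective
  haveI : FiniteDimensional F R := Module.Finite.of_finite
  have h2R : (2 : R) ≠ 0 := by
    have h3 := (map_ne_zero (algebraMap F R)).2 h2
    rwa [map_ofNat] at h3
  obtain ⟨ν', hν'⟩ : ∃ ν', ν' = algebraMap F R ν := ⟨_, rfl⟩
  rw [← hν'] at hz1 hz2
  have hν0 : ν ≠ 0 := fun h => hν (h ▸ IsSquare.zero)
  have hν'0 : ν' ≠ 0 := by rw [hν']; exact (map_ne_zero _).2 hν0
  have hν'1 : ν' ≠ 1 := by
    rw [hν', ← map_one (algebraMap F R)]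
    intro h
    have := (algebraMap F R).injective h
    apply hν
    rw [this]; exact IsSquare.one
  have hjj : ∀ y, j (j y) = ν' • y := by
    intro y
    apply hi
    rw [hj, hj, hJ, hν', algebraMap_smul, map_smul]
  have hjj' : ∀ y, j' (j' y) = ν' • y := by
    intro y
    apply hi
    rw [hj', hj', hJ', hν', algebraMap_smul, map_smul]
  have hjs : ∀ y w, S.B (i (j y)) (i w) = - S.B (i y) (i (j w)) := by
    intro y w
    rw [hj, hj, hJs]
  have hjs' : ∀ y w, S.B (i (j' y)) (i w) = - S.B (i y) (i (j' w)) := by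
    intro y w
    rw [hj', hj', hJs']
  obtain ⟨l, μ, hl, hlμ⟩ := exists_conic h2R hν'0 hν'1 hz1 hz2
  have hsinj : ∀ {a b : R} {y : U}, y ≠ 0 → a • y = b • y → a = b := by
    intro a b y hy hab
    exact smul_left_injective R hy hab
  -- a vector `x` with `j' x = l x + μ j x`
  obtain ⟨x, hx0, hx⟩ : ∃ x : U, x ≠ 0 ∧ j' x = l • x + μ • j x := by
    have key : ∃ y, -(j' y) - l • y + μ • j y ≠ 0 := by
      by_contra hcon
      push Not at hcon
      have e1 : ∀ y, j' y = μ • j y - l • y := by
        intro y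
        have := hcon y
        rw [← sub_eq_zero]
        rw [← neg_eq_zero, ← this]
        module
      obtain ⟨y, hy⟩ := exists_ne (0 : U)
      have e2 : ∀ y, (2 * l) • j y = (2 * μ * ν' - z) • y := by
        intro y
        have h3 := hz y
        rw [e1 (j y), e1 y, map_sub, map_smul, map_smul, hjj] at h3
        have h4 : (2 * μ * ν' - z) • y = (2 * μ * ν') • y - z • y := by rw [sub_smul]
        rw [h4, ← h3]
        module
      have e3 : ((2 * l) * ((2 * l) * ν')) • y = ((2 * μ * ν' - z) * (2 * μ * ν' - z)) • y := by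
        calc ((2 * l) * ((2 * l) * ν')) • y = (2 * l) • j ((2 * l) • j y) := by
              rw [j.map_smul, hjj]; module
          _ = (2 * μ * ν' - z) • ((2 * l) • j y) := by
              rw [e2]
          _ = _ := by rw [e2, smul_smul]
      have e4 := hsinj hy e3
      have e5 : (z - 2 * ν') * (z - -(2 * ν')) = 0 := by
        linear_combination -e4 + 4 * ν' * hlμ
      rcases mul_eq_zero.1 e5 with h4 | h4
      · exact hz1 (sub_eq_zero.1 h4)
      · exact hz2 (sub_eq_zero.1 h4)
    obtain ⟨y, hy⟩ := key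
    refine ⟨_, hy, ?_⟩
    have e1 : j' (j y) = z • y - j (j' y) := by rw [← hz y]; abel
    simp only [map_add, map_sub, map_neg, map_smul, hjj, hjj', e1]
    have e2 : (l ^ 2) • y = (ν' - μ * z + μ ^ 2 * ν') • y := by rw [hlμ]
    have e3 : (l ^ 2) • y = ν' • y - (μ * z) • y + (μ ^ 2 * ν') • y := by
      rw [e2]; module
    rw [← sub_eq_zero]
    have e4 : (l ^ 2) • y - (ν' • y - (μ * z) • y + (μ ^ 2 * ν') • y) = 0 := by
      rw [e3, sub_self]
    rw [← e4]
    module
  -- isotropy
  have hBj : ∀ c : R, S.B (i x) (i (c • j x)) = 0 := by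
    intro c
    have h3 : S.B (i x) (i (c • j x)) = - S.B (i x) (i (c • j x)) := by
      calc S.B (i x) (i (c • j x)) = S.B (i x) (i (j (c • x))) := by rw [j.map_smul]
        _ = - S.B (i (j x)) (i (c • x)) := by rw [hjs, neg_neg]
        _ = - S.B (i (c • x)) (i (j x)) := by rw [Bsymm]
        _ = - S.B (i x) (i (c • j x)) := by rw [hself]
    have h4 : 2 * S.B (i x) (i (c • j x)) = 0 := by linear_combination h3
    exact (mul_eq_zero.1 h4).resolve_left h2
  have hBj' : ∀ c : R, S.B (i x) (i (c • j' x)) = 0 := by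
    intro c
    have h3 : S.B (i x) (i (c • j' x)) = - S.B (i x) (i (c • j' x)) := by
      calc S.B (i x) (i (c • j' x)) = S.B (i x) (i (j' (c • x))) := by rw [j'.map_smul]
        _ = - S.B (i (j' x)) (i (c • x)) := by rw [hjs', neg_neg]
        _ = - S.B (i (c • x)) (i (j' x)) := by rw [Bsymm]
        _ = - S.B (i x) (i (c • j' x)) := by rw [hself]
    have h4 : 2 * S.B (i x) (i (c • j' x)) = 0 := by linear_combination h3
    exact (mul_eq_zero.1 h4).resolve_left h2
  have hBx : ∀ c : R, S.B (i x) (i (c • x)) = 0 := by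
    intro c
    have h3 := hBj' (l⁻¹ * c)
    rw [hx, smul_add, smul_smul, smul_smul, map_add, map_add, hBj, add_zero] at h3
    have h4 : l⁻¹ * c * l = c := by field_simp
    rwa [h4] at h3
  -- `x` and `j x` are independent
  have hind : ∀ a b : R, a • x = b • j x → a = 0 ∧ b = 0 := by
    intro a b hab
    by_cases hb : b = 0
    · refine ⟨?_, hb⟩
      rw [hb, zero_smul] at hab
      exact (smul_eq_zero.1 hab).resolve_right hx0
    · exfalso
      have h3 : j x = (b⁻¹ * a) • x := by
        rw [mul_smul, hab, smul_smul, inv_mul_cancel₀ hb, one_smul]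
      obtain ⟨ρ, hρ⟩ : ∃ ρ, ρ = b⁻¹ * a := ⟨_, rfl⟩
      rw [← hρ] at h3
      have h4 : ρ * ρ = ν' := by
        apply hsinj hx0
        rw [mul_smul, ← h3, ← map_smul, ← h3, hjj]
      have h5 : j' x = (l + μ * ρ) • x := by rw [hx, h3]; module
      have h6 : (l + μ * ρ) * (l + μ * ρ) = ν' := by
        apply hsinj hx0
        rw [mul_smul, ← h5, ← map_smul, ← h5, hjj']
      have h7 : z = 2 * ρ * (l + μ * ρ) := by
        apply hsinj hx0
        rw [← hz x, h3, h5, map_smul, map_smul, h3, h5]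
        module
      have h8 : (z - 2 * ν') * (z - -(2 * ν')) = 0 := by
        rw [h7]
        linear_combination 4 * (l + μ * ρ) * (l + μ * ρ) * h4 + 4 * ν' * h6
      rcases mul_eq_zero.1 h8 with h9 | h9
      · exact hz1 (sub_eq_zero.1 h9)
      · exact hz2 (sub_eq_zero.1 h9)
  -- the trace dual form
  have hβ : ∀ (y : U) (v : V), ∃ r : R, ∀ c, Algebra.trace F R (c * r) = S.B v (i (c • y)) := by
    intro y v
    let f : R →ₗ[F] F :=
      { toFun := fun c => S.B v (i (c • y))
        map_add' := fun a b => by rw [add_smul, map_add, map_add]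
        map_smul' := fun a b => by rw [smul_assoc, i.map_smul, (S.B v).map_smul]; rfl }
    obtain ⟨r, hr⟩ := exists_tr f
    exact ⟨r, fun c => hr c⟩
  choose β hβ using hβ
  have hβ_add : ∀ y v w, β y (v + w) = β y v + β y w := by
    intro y v w
    apply tr_inj (F := F)
    intro c
    rw [mul_add, map_add, hβ, hβ, hβ, map_add, LinearMap.add_apply]
  have hβ_smul : ∀ y (a : F) v, β y (a • v) = a • β y v := by
    intro y a v
    apply tr_inj (F := F)
    intro c
    rw [hβ, mul_smul_comm, (Algebra.trace F R).map_smul, hβ, S.B.map_smul, LinearMap.smul_apply]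
  have hβ_smulR : ∀ (a : R) y v, β (a • y) v = a * β y v := by
    intro a y v
    apply tr_inj (F := F)
    intro c
    rw [hβ, ← mul_assoc, hβ, smul_smul]
  have hβ_addR : ∀ y y' v, β (y + y') v = β y v + β y' v := by
    intro y y' v
    apply tr_inj (F := F)
    intro c
    rw [hβ, mul_add, map_add, hβ, hβ, smul_add, map_add, map_add]
  have hβ_J : ∀ y v, β y (J v) = - β (j y) v := by
    intro y v
    apply tr_inj (F := F)
    intro c
    rw [hβ, mul_neg, map_neg, hβ, hJs, ← hj, j.map_smul]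
  have hβ_J' : ∀ y v, β y (J' v) = - β (j' y) v := by
    intro y v
    apply tr_inj (F := F)
    intro c
    rw [hβ, mul_neg, map_neg, hβ, hJs', ← hj', j'.map_smul]
  have hβ_zero : ∀ y v, (∀ c : R, S.B v (i (c • y)) = 0) → β y v = 0 := by
    intro y v h
    apply tr_inj (F := F)
    intro c
    rw [hβ, h, mul_zero, map_zero]
  -- the nilpotent map
  let M : V →ₗ[F] V :=
    { toFun := fun v => i (β (j x) v • x - β x v • j x)
      map_add' := fun v w => by
        rw [hβ_add, hβ_add, ← map_add]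
        congr 1
        module
      map_smul' := fun a v => by
        rw [hβ_smul, hβ_smul, RingHom.id_apply, ← i.map_smul, smul_sub, smul_assoc, smul_assoc] }
  have hM : ∀ v, M v = i (β (j x) v • x - β x v • j x) := fun v => rfl
  -- the totally singular subspace
  have hBR : ∀ (a b : R), S.B (i (a • x)) (i (b • x)) = 0 := by
    intro a b
    rw [hself, smul_smul]; exact hBx _
  have hBR2 : ∀ (a b : R), S.B (i (a • x)) (i (b • j x)) = 0 := by
    intro a b
    rw [hself, smul_smul]; exact hBj _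
  have hBR3 : ∀ (a b : R), S.B (i (a • j x)) (i (b • j x)) = 0 := by
    intro a b
    rw [← j.map_smul, hjs, j.map_smul, hjj, smul_smul, hBR, neg_zero]
  let T : Submodule F V :=
    { carrier := {v | ∃ a b : R, v = i (a • x + b • j x)}
      add_mem' := by
        rintro _ _ ⟨a, b, rfl⟩ ⟨a', b', rfl⟩
        exact ⟨a + a', b + b', by rw [← map_add]; congr 1; module⟩
      zero_mem' := ⟨0, 0, by simp⟩
      smul_mem' := by
        rintro c _ ⟨a, b, rfl⟩
        exact ⟨c • a, c • b, by rw [← i.map_smul, smul_add, smul_assoc, smul_assoc]⟩ }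
  have hT : ∀ v ∈ T, S.Q v = 0 := by
    rintro _ ⟨a, b, rfl⟩
    apply Q_zero_of_B S h2
    rw [map_add, map_add, map_add, LinearMap.add_apply, LinearMap.add_apply, hBR, hBR2, hBR3,
      Bsymm, hBR2]
    simp
  have hMT : ∀ v ∈ T, M v = 0 := by
    rintro v ⟨a, b, rfl⟩
    rw [hM, hβ_zero, hβ_zero]
    · simp
    · intro c
      rw [map_add, map_add, LinearMap.add_apply, hBR, Bsymm, hBR2, add_zero]
    · intro c
      rw [map_add, map_add, LinearMap.add_apply, hBR2, hBR3, add_zero]
  have hMM : ∀ v, M (M v) = 0 := fun v => hMT _ ⟨β (j x) v, - β x v, by rw [hM]; congr 1; module⟩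
  refine ⟨oneAdd M hMM, ?_, ?_, ?_, ?_⟩
  · -- membership
    let b := Module.finBasis F R
    have hnd := traceForm_nondegenerate F R
    let b' := LinearMap.BilinForm.dualBasis (Algebra.traceForm F R) hnd b
    have hb1 : ∀ r : R, r = ∑ k, Algebra.trace F R (b k * r) • b' k := by
      intro r
      conv_lhs => rw [← b'.sum_repr r]
      refine Finset.sum_congr rfl fun k _ => ?_
      rw [LinearMap.BilinForm.dualBasis_repr_apply, Algebra.traceForm_apply, mul_comm]
    have hb2 : ∀ r : R, r = ∑ k, Algebra.trace F R (b' k * r) • b k := by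
      intro r
      conv_lhs => rw [← b.sum_repr r]
      refine Finset.sum_congr rfl fun k _ => ?_
      congr 1
      conv_rhs => rw [← b.sum_repr r]
      rw [Finset.mul_sum, map_sum]
      have : ∀ l, Algebra.trace F R (b' k * (b.repr r l • b l)) =
          b.repr r l * (if l = k then 1 else 0) := by
        intro l
        rw [mul_smul_comm, map_smul, smul_eq_mul, ← Algebra.traceForm_apply]
        congr 1
        exact LinearMap.BilinForm.apply_dualBasis_left hnd b k l
      simp only [this]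
      simp
    refine sum_mem_Om S h2 hV (fun k => i (b k • j x)) (fun k => i (b' k • x)) hT
      (fun k => ⟨0, b k, by rw [zero_smul, zero_add]⟩) (fun k => ⟨b' k, 0, by
        rw [zero_smul, add_zero]⟩) Finset.univ _ fun v => ?_
    rw [oneAdd_apply, hM, sumMap_apply, Finset.sum_sub_distrib]
    congr 1
    rw [map_sub]
    congr 1
    · conv_lhs => rw [hb1 (β (j x) v)]
      rw [Finset.sum_smul, map_sum]
      refine Finset.sum_congr rfl fun k _ => ?_
      rw [hβ, smul_assoc, map_smul]
    · conv_lhs => rw [hb2 (β x v)]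
      rw [Finset.sum_smul, map_sum]
      refine Finset.sum_congr rfl fun k _ => ?_
      rw [hβ, smul_assoc, map_smul]
  · -- not a scalar
    rintro ⟨c, hc⟩
    have h3 := hc (i x)
    rw [oneAdd_apply, hMT _ ⟨1, 0, by rw [one_smul, zero_smul, add_zero]⟩, add_zero] at h3
    have hix : i x ≠ 0 := fun h => hx0 (hi (by rw [h, map_zero]))
    have hc1 : c = 1 := by
      have h4 : (c - 1) • i x = 0 := by rw [sub_smul, one_smul, ← h3, sub_self]
      exact sub_eq_zero.1 ((smul_eq_zero.1 h4).resolve_right hix)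
    have h4 : ∀ v, M v = 0 := by
      intro v
      have h5 := hc v
      rw [oneAdd_apply, hc1, one_smul] at h5
      exact add_eq_left.1 h5
    obtain ⟨v, hv⟩ := exists_B_one S hix
    have h5 := h4 v
    rw [hM] at h5
    have h6 : β (j x) v • x - β x v • j x = 0 := hi (by rw [h5, map_zero])
    have h7 := (hind _ _ (sub_eq_zero.1 h6)).2
    have h8 := hβ x v 1
    rw [one_mul, h7, map_zero, one_smul, hv] at h8
    exact zero_ne_one h8
  · intro v
    rw [oneAdd_apply, oneAdd_apply, map_add]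
    congr 1
    rw [hM, hM, ← hj]
    congr 1
    rw [hβ_J, hβ_J, hjj, hβ_smulR, map_sub, map_smul, map_smul, hjj]
    module
  · intro v
    rw [oneAdd_apply, oneAdd_apply, map_add]
    congr 1
    rw [hM, hM, ← hj']
    congr 1
    have e1 : j' (j x) = (z - μ * ν') • x - l • j x := by
      have h3 : j' (j x) = z • x - j (j' x) := by rw [← hz x]; abel
      rw [h3, hx, map_add, map_smul, map_smul, hjj]
      module
    have e2 : β (j' (j x)) v = (z - μ * ν') * β x v - l * β (j x) v := by
      have : j' (j x) = (z - μ * ν') • x + (-l) • j x := by rw [e1]; module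
      rw [this, hβ_addR, hβ_smulR, hβ_smulR]; ring
    rw [hβ_J', hβ_J', e2, hx, hβ_addR, hβ_smulR, hβ_smulR, map_sub, map_smul, map_smul, e1, hx]
    module

end Pool.Agent.OmegaPlus
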