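import Mathlib
import Pool.Agent.OmegaPlus.Core

set_option autoImplicit false
set_option linter.unusedSectionVars false
set_option linter.unusedVariables false
set_option linter.style.haveILetI false
set_option linter.unusedSimpArgs false
set_option linter.unnecessarySeqFocus false

namespace Pool.Agent.OmegaPlus

open Module Pool.Agent.OmegaEven Pool.Agent.OmegaOdd

variable {F V : Type*} [Field F] [AddCommGroup V] [Module F V] (S : QSp F V)

/-- two skew square roots of a nonsquare scalar commute with a common element of the group -/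
theorem core_plus (h2 : (2 : F) ≠ 0) [Finite F] [FiniteDimensional F V] (hV : 4 < finrank F V)
    {J J' : V →ₗ[F] V} {ν : F} (hν : ¬ IsSquare ν) (hJ : ∀ x, J (J x) = ν • x)
    (hJ' : ∀ x, J' (J' x) = ν • x) (hJs : ∀ x y, S.B (J x) y = - S.B x (J y))
    (hJs' : ∀ x y, S.B (J' x) y = - S.B x (J' y)) :
    ∃ k ∈ S.Om, ¬ ActsScalar k ∧ (∀ y, k (J y) = J (k y)) ∧ (∀ y, k (J' y) = J' (k y)) := by
  by_cases h : ∃ x, x ≠ 0 ∧ S.Q x = 0 ∧ (J' x = J x ∨ J' x = - J x)
  · obtain ⟨x, hx0, hx, h3 | h3⟩ := h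
    · exact easy_case S h2 hV hν hJ hJ' hJs hJs' hx0 hx (e := 1) (one_mul _) (by rw [h3, one_smul])
    · exact easy_case S h2 hV hν hJ hJ' hJs hJs' hx0 hx (e := -1) (by ring)
        (by rw [h3, neg_one_smul])
  push Not at h
  have hν0 : ν ≠ 0 := fun h => hν (h ▸ IsSquare.zero)
  obtain ⟨K1, hK1⟩ : ∃ K1 : Submodule F V, K1 = LinearMap.ker (J' - J) := ⟨_, rfl⟩
  obtain ⟨K2, hK2⟩ : ∃ K2 : Submodule F V, K2 = LinearMap.ker (J' + J) := ⟨_, rfl⟩
  have m1 : ∀ x, x ∈ K1 ↔ J' x = J x := by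
    intro x
    rw [hK1, LinearMap.mem_ker, LinearMap.sub_apply, sub_eq_zero]
  have m2 : ∀ x, x ∈ K2 ↔ J' x = - J x := by
    intro x
    rw [hK2, LinearMap.mem_ker, LinearMap.add_apply, add_eq_zero_iff_eq_neg]
  have f1 : finrank F K1 ≤ 2 := by
    by_contra hcon
    obtain ⟨x, hx, hx0, hxQ⟩ := exists_sing S h2 (W := K1) (by omega)
    exact (h x hx0 hxQ).1 ((m1 x).1 hx)
  have f2 : finrank F K2 ≤ 2 := by
    by_contra hcon
    obtain ⟨x, hx, hx0, hxQ⟩ := exists_sing S h2 (W := K2) (by omega)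
    exact (h x hx0 hxQ).2 ((m2 x).1 hx)
  obtain ⟨P, hP⟩ : ∃ P : Submodule F V, P = perp S (K1 ⊔ K2) := ⟨_, rfl⟩
  have fP : 0 < finrank F P := by
    have h3 := finrank_perp S (K1 ⊔ K2)
    have h4 := Submodule.finrank_add_le_finrank_add_finrank K1 K2
    rw [hP]; omega
  have c1 : ∀ x ∈ K1, J x ∈ K1 ∧ J' x ∈ K1 := by
    intro x hx
    rw [m1] at hx
    rw [m1, m1, hx]
    have h3 : J' (J x) = J (J x) := by
      rw [← hx, hJ', hx, hJ]
    exact ⟨h3, h3⟩
  have c2 : ∀ x ∈ K2, J x ∈ K2 ∧ J' x ∈ K2 := by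
    intro x hx
    rw [m2] at hx
    have h3 : J' (J x) = - J (J x) := by
      have h4 : J x = - J' x := by rw [hx, neg_neg]
      rw [h4, map_neg, hJ', map_neg, hx, map_neg, hJ, neg_neg]
    rw [m2, m2, hx, map_neg, map_neg]
    exact ⟨h3, by rw [h3]⟩
  have cK : ∀ x ∈ K1 ⊔ K2, J x ∈ K1 ⊔ K2 ∧ J' x ∈ K1 ⊔ K2 := by
    intro x hx
    obtain ⟨a, ha, b, hb, rfl⟩ := Submodule.mem_sup.1 hx
    rw [map_add, map_add]
    exact ⟨Submodule.add_mem_sup (c1 a ha).1 (c2 b hb).1,
      Submodule.add_mem_sup (c1 a ha).2 (c2 b hb).2⟩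
  have cP : ∀ x ∈ P, J x ∈ P ∧ J' x ∈ P := by
    intro x hx
    rw [hP] at hx ⊢
    constructor
    · intro w hw
      rw [hJs, hx _ (cK w hw).1, neg_zero]
    · intro w hw
      rw [hJs', hx _ (cK w hw).2, neg_zero]
  -- a minimal stable subspace
  obtain ⟨U, ⟨hU0, hUP, hUs⟩, hmin⟩ : ∃ U : Submodule F V,
      (U ≠ ⊥ ∧ U ≤ P ∧ ∀ x ∈ U, J x ∈ U ∧ J' x ∈ U) ∧
      ∀ Y : Submodule F V, (Y ≠ ⊥ ∧ Y ≤ P ∧ ∀ x ∈ Y, J x ∈ Y ∧ J' x ∈ Y) →
        finrank F U ≤ finrank F Y := by
    let A : Set (Submodule F V) := {W | W ≠ ⊥ ∧ W ≤ P ∧ ∀ x ∈ W, J x ∈ W ∧ J' x ∈ W}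
    have hA : A.Nonempty := ⟨P, by
      rintro rfl
      rw [finrank_bot] at fP
      exact lt_irrefl _ fP, le_refl _, cP⟩
    refine ⟨Function.argminOn (fun W : Submodule F V => finrank F W) A hA,
      Function.argminOn_mem _ A hA, fun Y hY => ?_⟩
    exact Function.argminOn_le (fun W : Submodule F V => finrank F W) A hY
  haveI : Nontrivial U := by
    rw [Submodule.nontrivial_iff_ne_bot]; exact hU0
  -- no agreement on `U`
  have hno : ∀ x ∈ U, (J' x = J x ∨ J' x = - J x) → x = 0 := by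
    intro x hx h3
    by_contra hx0
    have h4 : x ∈ K1 ⊔ K2 := by
      rcases h3 with h3 | h3
      · exact Submodule.mem_sup_left ((m1 x).2 h3)
      · exact Submodule.mem_sup_right ((m2 x).2 h3)
    have h5 := hUP hx
    rw [hP] at h5
    have h6 := Q_zero_of_B S h2 (h5 x h4)
    rcases h3 with h3 | h3
    · exact (h x hx0 h6).1 h3
    · exact (h x hx0 h6).2 h3
  let JU : U →ₗ[F] U := J.restrict fun x hx => (hUs x hx).1
  let JU' : U →ₗ[F] U := J'.restrict fun x hx => (hUs x hx).2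
  have hJU : ∀ y : U, ((JU y : U) : V) = J y.1 := fun y => rfl
  have hJU' : ∀ y : U, ((JU' y : U) : V) = J' y.1 := fun y => rfl
  obtain ⟨zU, hzU⟩ : ∃ zU : Module.End F U, ∀ y, zU y = JU (JU' y) + JU' (JU y) :=
    ⟨JU ∘ₗ JU' + JU' ∘ₗ JU, fun y => rfl⟩
  have jj : ∀ y, JU (JU y) = ν • y := fun y => Subtype.ext (hJ y.1)
  have jj' : ∀ y, JU' (JU' y) = ν • y := fun y => Subtype.ext (hJ' y.1)
  have hcomm : ∀ r ∈ Algebra.adjoin F {zU}, ∀ y, r (JU y) = JU (r y) ∧ r (JU' y) = JU' (r y) := by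
    intro r hr
    induction hr using Algebra.adjoin_induction with
    | mem x hx =>
      rw [Set.mem_singleton_iff.1 hx]
      intro y
      rw [hzU, hzU, hzU, map_add, map_add, jj, jj', jj, jj', map_smul, map_smul]
      constructor <;> abel
    | algebraMap a =>
      intro y
      change a • JU y = JU (a • y) ∧ a • JU' y = JU' (a • y)
      rw [map_smul, map_smul]; exact ⟨rfl, rfl⟩
    | add a b _ _ ha hb =>
      intro y
      rw [LinearMap.add_apply, LinearMap.add_apply, LinearMap.add_apply, map_add, map_add,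
        (ha y).1, (ha y).2, (hb y).1, (hb y).2]
      exact ⟨rfl, rfl⟩
    | mul a b _ _ ha hb =>
      intro y
      change a (b (JU y)) = JU (a (b y)) ∧ a (b (JU' y)) = JU' (a (b y))
      rw [(hb y).1, (hb y).2, (ha _).1, (ha _).2]
      exact ⟨rfl, rfl⟩
  have hinj : ∀ r ∈ Algebra.adjoin F {zU}, r ≠ 0 → ∀ x, r x = 0 → x = 0 := by
    intro r hr hr0 x hx
    by_contra hx0
    apply hr0
    have h3 : (LinearMap.ker r).map U.subtype = U := by
      apply Submodule.eq_of_le_of_finrank_le (Submodule.map_subtype_le U _)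
      apply hmin
      refine ⟨?_, (Submodule.map_subtype_le U _).trans hUP, ?_⟩
      · intro h4
        apply hx0
        have h5 : x.1 ∈ (LinearMap.ker r).map U.subtype := ⟨x, hx, rfl⟩
        rw [h4, Submodule.mem_bot] at h5
        exact Subtype.ext h5
      · rintro _ ⟨y, hy, rfl⟩
        have hy' : r y = 0 := hy
        refine ⟨⟨JU y, ?_, rfl⟩, ⟨JU' y, ?_, rfl⟩⟩
        · change r (JU y) = 0
          rw [(hcomm r hr y).1, hy', map_zero]
        · change r (JU' y) = 0
          rw [(hcomm r hr y).2, hy', map_zero]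
    ext y
    have h4 : y.1 ∈ (LinearMap.ker r).map U.subtype := by rw [h3]; exact y.2
    obtain ⟨w, hw, hwy⟩ := h4
    have h5 : w = y := Subtype.ext hwy
    rw [← h5]
    have h6 : r w = 0 := hw
    rw [h6]; rfl
  have hf : IsField (Algebra.adjoin F {zU}) := isField_adjoin' zU hinj
  have hadj : ∀ r ∈ Algebra.adjoin F {zU}, ∀ x y : U, S.B (r x).1 y.1 = S.B x.1 (r y).1 := by
    intro r hr
    induction hr using Algebra.adjoin_induction with
    | mem x hx =>
      rw [Set.mem_singleton_iff.1 hx]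
      intro x y
      have e1 : ∀ w : U, (zU w).1 = J (J' w.1) + J' (J w.1) := fun w => by rw [hzU]; rfl
      rw [e1, e1, map_add, map_add, LinearMap.add_apply, hJs, hJs', hJs', hJs, neg_neg, neg_neg]
      ring
    | algebraMap a =>
      intro x y
      change S.B (a • x.1) y.1 = S.B x.1 (a • y.1)
      rw [map_smul, map_smul, LinearMap.smul_apply]
    | add a b _ _ ha hb =>
      intro x y
      change S.B ((a x).1 + (b x).1) y.1 = S.B x.1 ((a y).1 + (b y).1)
      rw [map_add, map_add, LinearMap.add_apply, ha, hb]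
    | mul a b ha' hb' ha hb =>
      intro x y
      have e1 : (a * b) y = (b * a) y := by
        have := hf.mul_comm ⟨a, ha'⟩ ⟨b, hb'⟩
        have h3 : a * b = b * a := congrArg Subtype.val this
        rw [h3]
      rw [e1]
      change S.B (a (b x)).1 y.1 = S.B x.1 (b (a y)).1
      rw [ha, hb]
  haveI : Finite (Module.End F U) := Module.finite_of_finite F
  letI : Field (Algebra.adjoin F {zU}) := hf.toField
  obtain ⟨z, hz⟩ : ∃ z : Algebra.adjoin F {zU}, z.1 = zU :=
    ⟨⟨zU, Algebra.self_mem_adjoin_singleton F _⟩, rfl⟩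
  have hzy : ∀ y : U, z • y = JU (JU' y) + JU' (JU y) := by
    intro y
    change z.1 y = _
    rw [hz, hzU]
  let j : U →ₗ[Algebra.adjoin F {zU}] U :=
    { toFun := JU
      map_add' := fun x y => map_add JU x y
      map_smul' := fun r x => ((hcomm r.1 r.2 x).1).symm }
  let j' : U →ₗ[Algebra.adjoin F {zU}] U :=
    { toFun := JU'
      map_add' := fun x y => map_add JU' x y
      map_smul' := fun r x => ((hcomm r.1 r.2 x).2).symm }
  have hal : ∀ (c : F) (y : U), (algebraMap F (Algebra.adjoin F {zU}) c) • y = c • y :=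
    fun c y => rfl
  refine good_case S h2 hV hν hJ hJ' hJs hJs' (R := Algebra.adjoin F {zU}) (U := U) U.subtype
    Subtype.val_injective j j' (fun y => rfl) (fun y => rfl) (fun c y w => hadj c.1 c.2 y w)
    (z := z) (fun y => (hzy y).symm) ?_ ?_
  · -- `z ≠ 2 ν`
    intro h3
    obtain ⟨y, hy⟩ := exists_ne (0 : U)
    have h4 : ∀ y : U, J (J' y.1) + J' (J y.1) = (2 * ν) • y.1 := by
      intro y
      have h5 := hzy y
      rw [h3] at h5
      have h6 : (2 * algebraMap F (Algebra.adjoin F {zU}) ν) • y = (2 * ν) • y := by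
        have : (2 * algebraMap F (Algebra.adjoin F {zU}) ν) =
          algebraMap F (Algebra.adjoin F {zU}) (2 * ν) := by rw [map_mul, map_ofNat]
        rw [this, hal]
      rw [h6] at h5
      exact (congrArg Subtype.val h5).symm
    -- `(J' - J)² = 0` on `U`
    have h5 : J' (J' y.1 - J y.1) = J (J' y.1 - J y.1) := by
      rw [map_sub, map_sub, hJ', hJ, ← sub_eq_zero]
      have := h4 y
      have e : ν • y.1 - J' (J y.1) - (J (J' y.1) - ν • y.1) =
        (2 * ν) • y.1 - (J (J' y.1) + J' (J y.1)) := by module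
      rw [e, this, sub_self]
    have h6 := hno _ (U.sub_mem (hUs _ y.2).2 (hUs _ y.2).1) (Or.inl h5)
    exact hy (Subtype.ext (hno _ y.2 (Or.inl (sub_eq_zero.1 h6))))
  · intro h3
    obtain ⟨y, hy⟩ := exists_ne (0 : U)
    have h4 : ∀ y : U, J (J' y.1) + J' (J y.1) = (-(2 * ν)) • y.1 := by
      intro y
      have h5 := hzy y
      rw [h3] at h5
      have h6 : (-(2 * algebraMap F (Algebra.adjoin F {zU}) ν)) • y = (-(2 * ν)) • y := by
        have : (-(2 * algebraMap F (Algebra.adjoin F {zU}) ν)) =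
          algebraMap F (Algebra.adjoin F {zU}) (-(2 * ν)) := by rw [map_neg, map_mul, map_ofNat]
        rw [this, hal]
      rw [h6] at h5
      exact (congrArg Subtype.val h5).symm
    have h5 : J' (J' y.1 + J y.1) = - J (J' y.1 + J y.1) := by
      rw [map_add, map_add, hJ', hJ, ← sub_eq_zero]
      have := h4 y
      have e : ν • y.1 + J' (J y.1) - -(J (J' y.1) + ν • y.1) =
        (J (J' y.1) + J' (J y.1)) - (-(2 * ν)) • y.1 := by module
      rw [e, this, sub_self]
    have h6 := hno _ (U.add_mem (hUs _ y.2).2 (hUs _ y.2).1) (Or.inr h5)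
    exact hy (Subtype.ext (hno _ y.2 (Or.inr (add_eq_zero_iff_eq_neg.1 h6))))

end Pool.Agent.OmegaPlus
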