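import Mathlib
import Pool.Agent.OmegaPlus.Core2
import Pool.Agent.OmegaPlus.Cases

set_option autoImplicit false
set_option linter.unusedSectionVars false
set_option linter.unusedVariables false
set_option linter.style.haveILetI false
set_option linter.unusedSimpArgs false
set_option linter.unnecessarySeqFocus false

namespace Pool.Agent.OmegaPlus

open Module Pool.Agent.OmegaEven Pool.Agent.OmegaOdd

section
variable {F V : Type*} [Field F] [AddCommGroup V] [Module F V] (S : QSp F V)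

theorem exists_nonsq {F : Type*} [Field F] [Finite F] (h2 : (2 : F) ≠ 0) : ∃ ν : F, ¬ IsSquare ν := by
  cases nonempty_fintype F
  apply FiniteField.exists_nonsquare
  intro h
  apply h2
  have := ringChar.Nat.cast_ringChar (R := F)
  rw [h] at this
  exact_mod_cast this

theorem ObsP_split (h2 : (2 : F) ≠ 0) [Finite F] [FiniteDimensional F V] {m : ℕ} (hm : 4 ≤ m)
    (hm4 : m % 4 = 2) (hV : finrank F V = 2 * m) {s g : V ≃ₗ[F] V} (hs : s ∈ S.O) (hg : g ∈ S.O)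
    (X : Submodule F V) (hXs : ∀ x ∈ X, s x ∈ X) (hXm : finrank F X = m)
    (hX : X ⊓ perp S X = ⊥)
    (h3 : ∀ Y : Submodule F V, Y ≤ X → (∀ y ∈ Y, s y ∈ Y) → Y = ⊥ ∨ Y = X)
    (h4 : ∀ Y : Submodule F V, Y ≤ perp S X → (∀ y ∈ Y, s y ∈ Y) → Y = ⊥ ∨ Y = perp S X) :
    ObsP S s (g * s * g⁻¹) := by
  haveI : Nontrivial V := Module.nontrivial_of_finrank_pos (R := F) (by omega)
  obtain ⟨ν, hν⟩ := exists_nonsq h2
  obtain ⟨Y, hY⟩ : ∃ Y, Y = perp S X := ⟨_, rfl⟩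
  have hYs := perp_inv S hs hXs
  have hYd := finrank_perp S X
  have hYp : Y ⊓ perp S Y = ⊥ := by
    rw [hY, perp_perp, inf_comm]; exact hX
  rw [← hY] at hYs hYd h4 hX
  obtain ⟨k1, hk1, hJ1⟩ := exists_skew h2 (sub S X (by rw [← hY]; exact hX)) (res s X hXs)
    (res_mem S hs X (by rw [← hY]; exact hX) hXs) (res_irr X hXs h3) (by omega)
  obtain ⟨k2, hk2, hJ2⟩ := exists_skew h2 (sub S Y hYp) (res s Y hYs)
    (res_mem S hs Y hYp hYs) (res_irr Y hYs h4) (by omega)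
  obtain ⟨J1, a1, b1, c1⟩ := hJ1 (by rw [Nat.odd_iff]; omega) ν hν
  obtain ⟨J2, a2, b2, c2⟩ := hJ2 (by rw [Nat.odd_iff]; omega) ν hν
  have hcompl : IsCompl X Y := by
    apply IsCompl.of_eq hX
    apply Submodule.eq_top_of_finrank_eq
    have := Submodule.finrank_sup_add_finrank_inf_eq X Y
    rw [hX, finrank_bot] at this
    omega
  let e := Submodule.prodEquivOfIsCompl X Y hcompl
  have he : ∀ (x : X) (y : Y), e (x, y) = x.1 + y.1 := fun x y => rfl
  have hdec : ∀ v : V, ∃ (x : X) (y : Y), v = x.1 + y.1 := by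
    intro v
    obtain ⟨⟨x, y⟩, hxy⟩ := e.surjective v
    exact ⟨x, y, by rw [← hxy, he]⟩
  let J : V →ₗ[F] V := (e : X × Y →ₗ[F] V) ∘ₗ (J1.prodMap J2) ∘ₗ (e.symm : V →ₗ[F] X × Y)
  have hJ : ∀ (x : X) (y : Y), J (x.1 + y.1) = (J1 x).1 + (J2 y).1 := by
    intro x y
    rw [← he]
    change e ((J1.prodMap J2) (e.symm (e (x, y)))) = _
    rw [LinearEquiv.symm_apply_apply]
    rfl
  have hJJ : ∀ v, J (J v) = ν • v := by
    intro v
    obtain ⟨x, y, rfl⟩ := hdec v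
    rw [hJ, hJ, a1, a2, smul_add]; rfl
  have hXY : ∀ (x : X) (y : Y), S.B x.1 y.1 = 0 := by
    intro x y
    have h5 : y.1 ∈ perp S X := hY ▸ y.2
    rw [Bsymm]
    exact h5 x.1 x.2
  have hJs : ∀ v w, S.B (J v) w = - S.B v (J w) := by
    intro v w
    obtain ⟨x, y, rfl⟩ := hdec v
    obtain ⟨x', y', rfl⟩ := hdec w
    rw [hJ, hJ]
    simp only [map_add, LinearMap.add_apply]
    have e1 : S.B (J1 x).1 x'.1 = - S.B x.1 (J1 x').1 := b1 x x'
    have e2 : S.B (J2 y).1 y'.1 = - S.B y.1 (J2 y').1 := b2 y y'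
    rw [hXY, Bsymm S (J2 y).1, hXY, hXY, Bsymm S y.1 (J1 x').1, hXY, e1, e2]; ring
  have hJc : ∀ v, s (J v) = J (s v) := by
    intro v
    obtain ⟨x, y, rfl⟩ := hdec v
    rw [hJ, map_add, map_add]
    have e1 : (J1 (res s X hXs x)).1 = s (J1 x).1 := congrArg Subtype.val (c1 x)
    have e2 : (J2 (res s Y hYs y)).1 = s (J2 y).1 := congrArg Subtype.val (c2 y)
    rw [← e1, ← e2, ← hJ]; rfl
  obtain ⟨J', hJ'⟩ : ∃ J' : V →ₗ[F] V, ∀ x, J' x = g (J (g⁻¹ x)) :=
    ⟨(g : V →ₗ[F] V) ∘ₗ J ∘ₗ (g⁻¹ : V ≃ₗ[F] V), fun x => rfl⟩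
  have hgi : g⁻¹ ∈ S.O := S.O.inv_mem hg
  have hJJ' : ∀ v, J' (J' v) = ν • v := by
    intro v
    rw [hJ', hJ', inv_apply_self', hJJ, map_smul, apply_inv_self']
  have hJs' : ∀ v w, S.B (J' v) w = - S.B v (J' w) := by
    intro v w
    have e1 := S.O_B hgi (J' v) w
    have e2 := S.O_B hgi v (J' w)
    rw [← e1, ← e2, hJ', hJ', inv_apply_self', inv_apply_self', hJs]
  obtain ⟨k, hk, hks, hkJ, hkJ'⟩ := core_plus S h2 (by omega) hν hJJ hJJ' hJs hJs'
  obtain ⟨u, -, hu0, hu⟩ := exists_sing S h2 (W := (⊤ : Submodule F V))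
    (by rw [finrank_top]; omega)
  refine ⟨k, hk, hks, ⟨centr J, scalar_le_centr J, hkJ, hJc,
    Om_centr S h2 (by omega) hν hJJ hu0 hu⟩, ⟨centr J', scalar_le_centr J', hkJ', ?_,
    Om_centr S h2 (by omega) hν hJJ' hu0 hu⟩⟩
  intro x
  rw [hJ', hJ']
  change g (s (g⁻¹ (g (J (g⁻¹ x))))) = g (J (g⁻¹ (g (s (g⁻¹ x)))))
  rw [inv_apply_self', inv_apply_self', hJc]

end

variable {F V : Type*} [Field F] [AddCommGroup V] [Module F V]

theorem plus_final [Finite F] (h2 : (2 : F) ≠ 0) (m : ℕ) (hm : 4 ≤ m) (hm4 : m % 4 = 2)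
    (hV : finrank F V = 2 * m) (Q : QuadraticForm F V) (hQ : Nondeg Q)
    (hplus : ∃ U : Submodule F V, (∀ x ∈ U, Q x = 0) ∧ finrank F U = m) :
    3 ≤ uniformDomination (POmega Q) := by
  have : FiniteDimensional F V := Module.finite_of_finrank_pos (by omega)
  -- from the obstruction to the generation statement
  have key : ∀ (a b : Omega Q) (H : Subgroup (V ≃ₗ[F] V)), scalarGroup F V ≤ H → a.1 ∈ H →
      b.1 ∈ H → ¬ Omega Q ≤ H →
      Subgroup.closure {(QuotientGroup.mk a : POmega Q), QuotientGroup.mk b} ≠ ⊤ := by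
    intro a b H hH ha hb hne htop
    apply hne
    intro x hx
    have h1 : (QuotientGroup.mk ⟨x, hx⟩ : POmega Q) ∈
        Subgroup.closure {(QuotientGroup.mk a : POmega Q), QuotientGroup.mk b} := by
      rw [htop]; trivial
    have h3 : Subgroup.closure {(QuotientGroup.mk a : POmega Q), QuotientGroup.mk b} =
        (Subgroup.closure {a, b}).map (QuotientGroup.mk' (scalarsIn Q)) := by
      rw [MonoidHom.map_closure, Set.image_pair]; rfl
    rw [h3] at h1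
    obtain ⟨y, hy, hyx⟩ := h1
    have h4 : Subgroup.closure {a, b} ≤ H.subgroupOf (Omega Q) := by
      rw [Subgroup.closure_le]
      rintro z (rfl | rfl)
      · exact ha
      · exact hb
    have h5 : y.1 ∈ H := h4 hy
    have h6 : y⁻¹ * ⟨x, hx⟩ ∈ scalarsIn Q := QuotientGroup.eq.1 hyx
    have h7 : (y⁻¹ * ⟨x, hx⟩ : Omega Q).1 ∈ H := hH h6
    have h8 : x = y.1 * (y⁻¹ * ⟨x, hx⟩ : Omega Q).1 := by
      change x = y.1 * (y.1⁻¹ * x)
      rw [mul_inv_cancel_left]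
    rw [h8]
    exact H.mul_mem h5 h7
  apply three_le_uniformDomination
  intro s g
  induction s using QuotientGroup.induction_on with
  | H s =>
    induction g using QuotientGroup.induction_on with
    | H g =>
      have hs := (toQSp Q hQ).Om_le s.2
      have hg := (toQSp Q hQ).Om_le g.2
      have hobs : ObsP (toQSp Q hQ) s.1 (g.1 * s.1 * g.1⁻¹) := by
        rcases structure_cases (toQSp Q hQ) h2 m hm (by rw [Nat.even_iff]; omega) hV hs hg
          hplus with h | ⟨X, a1, a2, a3, a4, a5⟩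
        · exact h
        · exact ObsP_split (toQSp Q hQ) h2 hm hm4 hV hs hg X a1 a2 a3 a4 a5
      obtain ⟨k, hk, hks, ⟨H, b1, b2, b3, b4⟩, ⟨H', c1, c2, c3, c4⟩⟩ := hobs
      refine ⟨QuotientGroup.mk ⟨k, hk⟩, ?_, key ⟨k, hk⟩ s H b1 b2 b3 b4,
        key ⟨k, hk⟩ (g * s * g⁻¹) H' c1 c2 c3 c4⟩
      intro h1
      exact hks ((QuotientGroup.eq_one_iff (⟨k, hk⟩ : Omega Q)).1 h1)

end Pool.Agent.OmegaPlus
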