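import Mathlib
import Pool.Agent.OmegaPlus.Core2
import Pool.Agent.OmegaPlus.Cases

set_option autoImplicit false
set_option linter.unusedSectionVars false
set_option linter.unusedVariables false
set_option linter.style.haveILetI false
set_option linter.unusedSimpArgs false
set_option linter.unnecessarySeqFocus false

/-! The group of plus type in dimension eight over the field of three elements. -/

namespace Pool.Agent.OmegaPlus

open Module Pool.Agent.OmegaEven Pool.Agent.OmegaOdd

section sign
variable {F V : Type*} [Field F] [AddCommGroup V] [Module F V]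

/-- the action of the isometries on the vectors of norm `c` -/
noncomputable def actHom (S : QSp F V) (c : F) : S.O →* Equiv.Perm {v : V // S.Q v = c} where
  toFun g := Equiv.Perm.subtypePerm (g.1.toEquiv : Equiv.Perm V) (fun x => by
    change S.Q (g.1 x) = c ↔ _
    rw [g.2 x])
  map_one' := by ext x; rfl
  map_mul' := by intro a b; ext x; rfl

theorem actHom_apply (S : QSp F V) (c : F) (g : S.O) (x : {v : V // S.Q v = c}) :
    ((actHom S c g x : {v : V // S.Q v = c}) : V) = g.1 x.1 := rfl

/-- an element of the commutator subgroup permutes the vectors of norm `c` evenly -/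
theorem sign_of_mem_Om (S : QSp F V) (c : F) [Fintype {v : V // S.Q v = c}]
    [DecidableEq {v : V // S.Q v = c}] {g : V ≃ₗ[F] V} (hg : g ∈ S.Om) :
    Equiv.Perm.sign (actHom S c ⟨g, S.Om_le hg⟩) = 1 := by
  have h : S.Om ≤ (MonoidHom.ker (Equiv.Perm.sign.comp (actHom S c))).map S.O.subtype := by
    unfold QSp.Om
    rw [Subgroup.commutator_le]
    intro a ha b hb
    refine ⟨(⟨a, ha⟩ : S.O) * (⟨b, hb⟩ : S.O) * (⟨a, ha⟩ : S.O)⁻¹ * (⟨b, hb⟩ : S.O)⁻¹, ?_, ?_⟩
    · rw [SetLike.mem_coe, MonoidHom.mem_ker, map_mul, map_mul, map_mul, map_inv, map_inv,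
        mul_comm ((Equiv.Perm.sign.comp (actHom S c)) (⟨a, ha⟩ : S.O))]
      group
    · rfl
  obtain ⟨k, hk, hkg⟩ := h hg
  have hk' : k = ⟨g, S.Om_le hg⟩ := Subtype.ext hkg
  rw [← hk']
  exact hk

end sign

section split
variable {F V : Type*} [Field F] [Fintype F] [AddCommGroup V] [Module F V]

theorem univ_three (hF : Fintype.card F = 3) [DecidableEq F] :
    (Finset.univ : Finset F) = {0, 1, -1} ∧ (2 : F) ≠ 0 ∧ (0 : F) ∉ ({1, -1} : Finset F) ∧
      (1 : F) ∉ ({-1} : Finset F) := by
  haveI : Fact (Nat.Prime 3) := ⟨Nat.prime_three⟩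
  haveI : CharP F 3 := charP_of_card_eq_prime hF
  have h2 : (2 : F) ≠ 0 := by
    intro h
    have h3 : ((2 : ℕ) : F) = 0 := by exact_mod_cast h
    rw [CharP.cast_eq_zero_iff F 3] at h3
    omega
  have h3 : (1 : F) ∉ ({-1} : Finset F) := by
    rw [Finset.mem_singleton]
    intro h
    apply h2
    linear_combination h
  have h4 : (0 : F) ∉ ({1, -1} : Finset F) := by
    simp only [Finset.mem_insert, Finset.mem_singleton, not_or]
    refine ⟨zero_ne_one, fun h => ?_⟩
    have h1 : (1 : F) = 0 := by linear_combination h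
    exact one_ne_zero h1
  refine ⟨?_, h2, h4, h3⟩
  symm
  apply Finset.eq_univ_of_card
  rw [hF, Finset.card_insert_of_notMem h4, Finset.card_insert_of_notMem h3, Finset.card_singleton]

/-- the involution with eigenspaces of dimension four is not in the commutator subgroup -/
theorem not_mem_Om [Fintype V] (hF : Fintype.card F = 3) (S : QSp F V) (X Y : Submodule F V)
    (hXY : IsCompl X Y) (horth : ∀ x ∈ X, ∀ y ∈ Y, S.B x y = 0)
    (hX : ∀ c : F, c ≠ 0 → Nat.card {x : X // S.Q x.1 = c} = 30)
    (hY : ∀ c : F, c ≠ 0 → Nat.card {x : Y // S.Q x.1 = c} = 30)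
    (cX : Nat.card X = 81) (cY : Nat.card Y = 81) {j : V ≃ₗ[F] V} 
    (hjX : ∀ x ∈ X, j x = x) (hjY : ∀ y ∈ Y, j y = - y) : j ∉ S.Om := by
  classical
  obtain ⟨hu, h2, hn0, hn1⟩ := univ_three hF
  -- the zero classes
  have hsum : ∀ Z : Submodule F V, Nat.card Z = 81 →
      (∀ c : F, c ≠ 0 → Nat.card {x : Z // S.Q x.1 = c} = 30) →
      Nat.card {x : Z // S.Q x.1 = 0} = 21 := by
    intro Z cZ hZ
    have h1 : Fintype.card Z = ∑ c : F, Fintype.card {x : Z // S.Q x.1 = c} := by
      rw [← Finset.card_univ, Finset.card_eq_sum_card_fiberwise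
        (f := fun x : Z => S.Q x.1) (t := Finset.univ) (fun x _ => Finset.mem_univ _)]
      apply Finset.sum_congr rfl
      intro c _
      rw [Fintype.card_subtype]
    rw [hu, Finset.sum_insert hn0, Finset.sum_insert hn1, Finset.sum_singleton] at h1
    have h3 := hZ 1 one_ne_zero
    have h4 := hZ (-1) (neg_ne_zero.2 one_ne_zero)
    rw [Nat.card_eq_fintype_card] at h3 h4 cZ ⊢
    omega
  have hX0 := hsum X cX hX
  have hY0 := hsum Y cY hY
  intro hj
  have hsgn := sign_of_mem_Om S 1 hj
  rw [Equiv.Perm.sign_of_pow_two_eq_one] at hsgn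
  · -- the count of the fixed points
    have hdec : ∀ v : V, ∃ x ∈ X, ∃ y ∈ Y, v = x + y := by
      intro v
      have : v ∈ X ⊔ Y := by rw [hXY.sup_eq_top]; trivial
      obtain ⟨x, hx, y, hy, h⟩ := Submodule.mem_sup.1 this
      exact ⟨x, hx, y, hy, h.symm⟩
    have hfix : Fintype.card (Function.fixedPoints (actHom S 1 ⟨j, S.Om_le hj⟩)) = 30 := by
      rw [← hX 1 one_ne_zero, Nat.card_eq_fintype_card]
      symm
      apply Fintype.card_congr
      refine
        { toFun := fun x => ⟨⟨x.1.1, x.2⟩, Subtype.ext (hjX _ x.1.2)⟩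
          invFun := fun v => ⟨⟨v.1.1, ?_⟩, v.1.2⟩
          left_inv := fun x => rfl
          right_inv := fun v => rfl }
      have h3 : j v.1.1 = v.1.1 := congrArg Subtype.val v.2
      obtain ⟨x, hx, y, hy, h⟩ := hdec v.1.1
      rw [h, map_add, hjX x hx, hjY y hy] at h3
      have h4 : (2 : F) • y = 0 := by
        rw [two_smul]
        have h5 : y + y = (x + y) - (x + -y) := by abel
        rw [h5, h3, sub_self]
      have h5 : y = 0 := (smul_eq_zero.1 h4).resolve_left h2
      rw [h, h5, add_zero]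
      exact hx
    -- the count of the vectors of norm one
    have hall : Fintype.card {v : V // S.Q v = 1} = 2160 := by
      have e : V ≃ X × Y := (Submodule.prodEquivOfIsCompl X Y hXY).symm.toEquiv
      have h3 : Fintype.card {v : V // S.Q v = 1} =
          Fintype.card {w : X × Y // S.Q w.1.1 + S.Q w.2.1 = 1} := by
        apply Fintype.card_congr
        refine (Equiv.subtypeEquiv (Submodule.prodEquivOfIsCompl X Y hXY).toEquiv ?_).symm
        intro w
        have h4 : (Submodule.prodEquivOfIsCompl X Y hXY).toEquiv w = w.1.1 + w.2.1 := rfl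
        rw [h4, S.add, horth _ w.1.2 _ w.2.2, add_zero]
      have h4 : Fintype.card {w : X × Y // S.Q w.1.1 + S.Q w.2.1 = 1} =
          ∑ c : F, Fintype.card {x : X // S.Q x.1 = c} *
            Fintype.card {y : Y // S.Q y.1 = 1 - c} := by
        rw [Fintype.card_subtype, Finset.card_eq_sum_card_fiberwise
          (f := fun w : X × Y => S.Q w.1.1) (t := Finset.univ) (fun x _ => Finset.mem_univ _)]
        apply Finset.sum_congr rfl
        intro c _
        rw [Fintype.card_subtype, Fintype.card_subtype, ← Finset.card_product]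
        congr 1
        ext w
        simp only [Finset.mem_filter, Finset.mem_univ, true_and, Finset.mem_product]
        constructor
        · rintro ⟨h5, h6⟩
          exact ⟨h6, by rw [← h6]; linear_combination h5⟩
        · rintro ⟨h5, h6⟩
          exact ⟨by rw [h5, h6]; ring, h5⟩
      rw [h3, h4, hu, Finset.sum_insert hn0, Finset.sum_insert hn1, Finset.sum_singleton]
      have a1 := hX 1 one_ne_zero
      have a2 := hX (-1) (neg_ne_zero.2 one_ne_zero)
      have b1 := hY 1 one_ne_zero
      have b2 := hY (1 - -1) (by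
        intro h
        apply h2
        linear_combination h)
      rw [Nat.card_eq_fintype_card] at a1 a2 b1 b2 hX0 hY0
      rw [sub_zero, sub_self, a1, a2, b1, b2, hX0, hY0]; norm_num
    rw [hfix, hall, show (2160 - 30) / 2 = 2 * 532 + 1 by norm_num, pow_succ, pow_mul] at hsgn
    revert hsgn
    simp
  · ext v
    rw [pow_two]
    change j (j v.1) = v.1
    have : v.1 ∈ X ⊔ Y := by rw [hXY.sup_eq_top]; trivial
    obtain ⟨x, hx, y, hy, h⟩ := Submodule.mem_sup.1 this
    rw [← h, map_add, hjX x hx, hjY y hy, map_add, hjX x hx, map_neg, hjY y hy, neg_neg]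

end split

section irr

/-- fibres of a nonzero functional -/
theorem card_fib {F L : Type*} [Field F] [Fintype F] [AddCommGroup L] [Module F L] [Fintype L]
    [DecidableEq F] (T : L →ₗ[F] F) (hT : T ≠ 0) (e : F) :
    (Finset.univ.filter (fun c : L => T c = e)).card * Fintype.card F = Fintype.card L := by
  classical
  obtain ⟨u, hu⟩ : ∃ u, T u = 1 := by
    by_contra hcon
    push Not at hcon
    apply hT
    ext x
    by_contra hx
    apply hcon ((T x)⁻¹ • x)
    rw [map_smul, smul_eq_mul, inv_mul_cancel₀ hx]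
  have h1 : ∀ e : F, (Finset.univ.filter (fun c : L => T c = e)).card =
      (Finset.univ.filter (fun c : L => T c = 0)).card := by
    intro e
    refine Finset.card_bij (fun c _ => c - e • u) ?_ ?_ ?_
    · intro c hc
      rw [Finset.mem_filter] at hc ⊢
      refine ⟨Finset.mem_univ _, ?_⟩
      rw [map_sub, map_smul, hu, hc.2, smul_eq_mul, mul_one, sub_self]
    · intro a _ b _ hab
      exact sub_left_injective hab
    · intro c hc
      rw [Finset.mem_filter] at hc
      refine ⟨c + e • u, ?_, add_sub_cancel_right _ _⟩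
      rw [Finset.mem_filter]
      refine ⟨Finset.mem_univ _, ?_⟩
      rw [map_add, map_smul, hu, hc.2, smul_eq_mul, mul_one, zero_add]
  have h2 : Fintype.card L = ∑ e : F, (Finset.univ.filter (fun c : L => T c = e)).card := by
    rw [← Finset.card_univ]
    exact Finset.card_eq_sum_card_fiberwise (f := fun c : L => T c) (t := Finset.univ)
      (fun x _ => Finset.mem_univ _)
  rw [h2, Finset.sum_congr rfl (fun e _ => h1 e), Finset.sum_const, Finset.card_univ, h1 e,
    smul_eq_mul, mul_comm]

/-- an irreducible isometry of a space of dimension four over the field of three elements -/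
theorem eight_irr {F X : Type*} [Field F] [Fintype F] (hF : Fintype.card F = 3) [AddCommGroup X]
    [Module F X] [FiniteDimensional F X] (S : QSp F X) (s : X ≃ₗ[F] X) (hs : s ∈ S.O)
    (hirr : ∀ Y : Submodule F X, (∀ y ∈ Y, s y ∈ Y) → Y = ⊥ ∨ Y = ⊤)
    (hX : finrank F X = 4) :
    ((∀ x, (s ^ 5) x = x) ∨ ∀ x, (s ^ 5) x = -x) ∧
      ∀ c : F, c ≠ 0 → Nat.card {x : X // S.Q x = c} = 30 := by
  classical
  obtain ⟨hu3, hF2, -, -⟩ := univ_three hF
  haveI : Fact (Nat.Prime 3) := ⟨Nat.prime_three⟩
  haveI : CharP F 3 := charP_of_card_eq_prime hF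
  haveI : Nontrivial X := Module.nontrivial_of_finrank_pos (R := F) (by omega)
  haveI : CharP (Module.End F X) 3 :=
    charP_of_injective_algebraMap (algebraMap F (Module.End F X)).injective 3
  obtain ⟨L, hL1, hL2, hL3, ι, hadj, hself, hcs, κ, D, u, hu, hικ, hκκ, hD, hskew, hspan, hind,
    hκs⟩ :=
    irr_struct_odd hF2 S s hs hirr (by omega)
  haveI : FiniteDimensional F L := Module.Finite.of_finite
  letI : Fintype L := Fintype.ofFinite L
  have hmulι : ∀ a b x, ι a (ι b x) = ι (a * b) x := fun a b x => by rw [map_mul]; rfl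
  -- the map
  let Ψ₀ : (L × L) →ₗ[F] X :=
    { toFun := fun w => ι w.1 u + ι w.2 (κ u)
      map_add' := fun w w' => by
        simp only [Prod.fst_add, Prod.snd_add, map_add, LinearMap.add_apply]; abel
      map_smul' := fun c w => by
        simp only [Prod.smul_fst, Prod.smul_snd, map_smul, LinearMap.smul_apply, smul_add,
          RingHom.id_apply] }
  have hΨ₀ : ∀ w, Ψ₀ w = ι w.1 u + ι w.2 (κ u) := fun w => rfl
  have hinj : Function.Injective Ψ₀ := by
    rw [injective_iff_map_eq_zero]
    intro w hw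
    rw [hΨ₀] at hw
    obtain ⟨h1, h2⟩ := hind _ _ hw
    exact Prod.ext h1 h2
  have hsurj : Function.Surjective Ψ₀ := by
    intro x
    obtain ⟨a, b, hab⟩ := hspan x
    exact ⟨(a, b), hab.symm⟩
  have hX2 : finrank F X = 2 * finrank F L := by
    have h1 := LinearEquiv.finrank_eq (LinearEquiv.ofBijective Ψ₀ ⟨hinj, hsurj⟩)
    rw [Module.finrank_prod] at h1
    omega
  have cL : Fintype.card L = 9 := by
    rw [Module.card_eq_pow_finrank (K := F), hF, show finrank F L = 2 by omega]; norm_num
  have hD0 : D ≠ 0 := fun h => hD (h ▸ IsSquare.zero)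
  haveI : CharP L 3 := charP_of_injective_algebraMap (algebraMap F L).injective 3
  have hrL : ringChar L ≠ 2 := by
    rw [ringChar.eq L 3]; norm_num
  have hD4 : D ^ 4 = -1 := by
    have h1 := FiniteField.pow_dichotomy hrL hD0
    have h3 := FiniteField.isSquare_iff hrL hD0
    rw [cL] at h1 h3
    exact h1.resolve_left fun h => hD (h3.2 h)
  have h2L : (2 : L) ≠ 0 := by
    intro h
    apply hF2
    apply (algebraMap F L).injective
    rw [map_zero, map_ofNat, h]
  refine ⟨?_, ?_⟩
  · -- the structure of `s`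
    obtain ⟨a, b, hab⟩ := hspan (s u)
    have hsall : ∀ x, s x = ι a x + ι b (κ x) := by
      intro x
      obtain ⟨c, d, rfl⟩ := hspan x
      rw [map_add, ← hcs, ← hcs, ← hκs, hab]
      simp only [map_add, hικ, hmulι, hκκ]
      simp only [← hικ, hmulι]
      rw [mul_comm a d, mul_comm a c, mul_comm b c, show b * (D * d) = d * (D * b) by ring]
      abel
    obtain ⟨σ, hσ⟩ : ∃ σ : Module.End F X, σ = (s : X →ₗ[F] X) := ⟨_, rfl⟩
    have hσx : ∀ x, σ x = s x := fun x => by rw [hσ]; rfl
    have hσe : σ = ι a + ι b * κ := by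
      ext x
      rw [hσx, hsall]; rfl
    have hικ' : ∀ c, Commute (ι c) κ := by
      intro c
      ext x
      exact hικ c x
    have hιι' : ∀ c d, Commute (ι c) (ι d) := by
      intro c d
      change ι c * ι d = ι d * ι c
      rw [← map_mul, ← map_mul, mul_comm]
    have hκ2 : κ * κ = ι D := by
      ext x
      exact hκκ x
    have h9 : σ ^ 9 = ι a - ι b * κ := by
      have hc : Commute (ι a) (ι b * κ) := (hιι' a b).mul_right (hικ' a)
      have h1 := add_pow_char_pow_of_commute (R := Module.End F X) (p := 3) (n := 2) hc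
      have h3 : (3 : ℕ) ^ 2 = 9 := by norm_num
      rw [h3] at h1
      have h4 : ∀ c : L, ι c ^ 9 = ι c := by
        intro c
        rw [← map_pow, ← cL, FiniteField.pow_card]
      have h5 : κ ^ 9 = - κ := by
        have h6 : κ ^ 9 = (κ * κ) ^ 4 * κ := by
          rw [← pow_two, ← pow_mul, ← pow_succ]
        rw [h6, hκ2, ← map_pow, hD4, map_neg, map_one, neg_mul, one_mul]
      rw [hσe, h1, h4, (hικ' b).mul_pow, h4, h5, mul_neg, sub_eq_add_neg]
    have hadjσ : ∀ x y, S.B (σ x) y = S.B x ((σ ^ 9) y) := by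
      intro x y
      rw [h9, hσe]
      change S.B (ι a x + ι b (κ x)) y = S.B x (ι a y - ι b (κ y))
      rw [map_add, LinearMap.add_apply, map_sub, hself, hself, hskew, hικ]
      ring
    have h10 : ∀ y, (σ ^ 10) y = y := by
      intro y
      rw [← sub_eq_zero]
      apply S.nd
      intro x
      have h1 := hadjσ x (σ y)
      rw [hσx x, hσx y, S.O_B hs, ← hσx y] at h1
      have h3 : (σ ^ 9) (σ y) = (σ ^ 10) y := by rw [pow_succ σ 9]; rfl
      rw [h3] at h1
      rw [map_sub, LinearMap.sub_apply, Bsymm S _ x, ← h1, Bsymm S y x, sub_self]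
    -- the fifth power
    have hpow : ∀ (k : ℕ) (x : X), (s ^ k) x = (σ ^ k) x := by
      intro k
      induction k with
      | zero => intro x; rfl
      | succ k ih =>
        intro x
        rw [pow_succ, pow_succ]
        change (s ^ k) (s x) = (σ ^ k) (σ x)
        rw [ih, hσx]
    have hcomm : ∀ x, (σ ^ 5) (σ x) = σ ((σ ^ 5) x) := by
      intro x
      change (σ ^ 5 * σ) x = (σ * σ ^ 5) x
      rw [← pow_succ, ← pow_succ']
    have h55 : ∀ x, (σ ^ 5) ((σ ^ 5) x) = x := by
      intro x
      change (σ ^ 5 * σ ^ 5) x = x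
      rw [← pow_add]
      exact h10 x
    rcases hirr (LinearMap.ker (σ ^ 5 - 1)) (by
      intro y hy
      rw [LinearMap.mem_ker] at hy ⊢
      have h1 : (σ ^ 5) y - y = 0 := hy
      change (σ ^ 5) (s y) - s y = 0
      rw [← hσx, hcomm, ← map_sub, h1, map_zero]) with h | h
    · right
      intro x
      rw [hpow]
      have h1 : (σ ^ 5) x + x ∈ LinearMap.ker (σ ^ 5 - 1) := by
        rw [LinearMap.mem_ker]
        change (σ ^ 5) ((σ ^ 5) x + x) - ((σ ^ 5) x + x) = 0
        rw [map_add, h55]
        abel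
      rw [h, Submodule.mem_bot] at h1
      exact eq_neg_of_add_eq_zero_left h1
    · left
      intro x
      rw [hpow]
      have h1 : x ∈ LinearMap.ker (σ ^ 5 - 1) := by rw [h]; trivial
      rw [LinearMap.mem_ker] at h1
      exact sub_eq_zero.1 h1
  · -- the count
    let T : L →ₗ[F] F :=
      { toFun := fun c => S.B (ι c u) u
        map_add' := fun c d => by rw [map_add, LinearMap.add_apply, map_add, LinearMap.add_apply]
        map_smul' := fun r c => by
          rw [map_smul, LinearMap.smul_apply, map_smul, LinearMap.smul_apply]; rfl }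
    have hTd : ∀ c, T c = S.B (ι c u) u := fun c => rfl
    have hcross : ∀ c, S.B (ι c u) (κ u) = 0 := by
      intro c
      have h1 : S.B (ι c u) (κ u) = - S.B (ι c u) (κ u) := by
        have h3 := hskew (ι c u) u
        rw [← hικ, hself] at h3
        rw [Bsymm S (κ u)] at h3
        rw [eq_comm, neg_eq_iff_eq_neg]
        exact h3
      have h3 : (2 : F) * S.B (ι c u) (κ u) = 0 := by linear_combination h1
      exact (mul_eq_zero.1 h3).resolve_left hF2
    have hQ : ∀ a b, 2 * S.Q (ι a u + ι b (κ u)) = T (a ^ 2 + (-D) * b ^ 2) := by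
      intro a b
      rw [← Bself]
      have e1 : S.B (ι a u) (ι a u) = S.B (ι (a ^ 2) u) u := by
        rw [← hself, hmulι, pow_two]
      have e2 : S.B (ι b (κ u)) (ι b (κ u)) = - S.B (ι (D * b ^ 2) u) u := by
        rw [← hself, hmulι, hικ, hskew, hκκ, ← hself, hmulι, pow_two]
      have e3 : S.B (ι a u) (ι b (κ u)) = 0 := by
        rw [← hself, hmulι]
        exact hcross _
      have e4 : S.B (ι b (κ u)) (ι a u) = 0 := by rw [Bsymm, e3]
      rw [map_add, map_add, LinearMap.add_apply, LinearMap.add_apply, e1, e2, e3, e4, hTd,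
        map_add, neg_mul, map_neg, LinearMap.add_apply, map_add, LinearMap.add_apply,
        LinearMap.neg_apply, map_neg, LinearMap.neg_apply]
      ring
    have hT0 : T ≠ 0 := by
      intro h
      apply hu
      apply S.nd
      intro y
      obtain ⟨a, b, rfl⟩ := hspan y
      rw [map_add, Bsymm S u, Bsymm S u]
      have h1 : S.B (ι a u) u = 0 := by
        rw [← hTd, h]; rfl
      have h3 : S.B (ι b (κ u)) u = 0 := by
        rw [hself, Bsymm]
        exact hcross b
      rw [h1, h3, add_zero]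
    have hη : ∀ x y : L, x ^ 2 + (-D) * y ^ 2 = 0 → x = 0 ∧ y = 0 := by
      intro x y hxy
      by_cases hy : y = 0
      · rw [hy] at hxy
        refine ⟨?_, hy⟩
        have : x ^ 2 = 0 := by linear_combination hxy
        exact pow_eq_zero_iff (two_ne_zero) |>.1 this
      · exfalso
        apply hD
        refine ⟨x * y⁻¹, ?_⟩
        field_simp
        linear_combination -hxy
    intro c hc
    have h2c : 2 * c ≠ 0 := mul_ne_zero hF2 hc
    let e : (L × L) ≃ X := Equiv.ofBijective Ψ₀ ⟨hinj, hsurj⟩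
    have h1 : Nat.card {x : X // S.Q x = c} =
        Nat.card {w : L × L // T (w.1 ^ 2 + (-D) * w.2 ^ 2) = 2 * c} := by
      symm
      apply Nat.card_congr
      refine Equiv.subtypeEquiv e ?_
      intro w
      have h3 : e w = ι w.1 u + ι w.2 (κ u) := rfl
      rw [h3, ← hQ]
      exact ⟨fun h => mul_left_cancel₀ hF2 h, fun h => by rw [h]⟩
    rw [h1, Nat.card_eq_fintype_card, Fintype.card_subtype]
    rw [Finset.card_eq_sum_card_fiberwise (f := fun w : L × L => w.1 ^ 2 + (-D) * w.2 ^ 2)
      (t := Finset.univ.filter (fun t : L => T t = 2 * c)) (by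
        intro w hw
        rw [Finset.mem_coe, Finset.mem_filter] at hw ⊢
        exact ⟨Finset.mem_univ _, hw.2⟩)]
    have h3 : ∀ t ∈ Finset.univ.filter (fun t : L => T t = 2 * c),
        (Finset.filter (fun w : L × L => w.1 ^ 2 + (-D) * w.2 ^ 2 = t)
          (Finset.univ.filter (fun w : L × L => T (w.1 ^ 2 + (-D) * w.2 ^ 2) = 2 * c))).card =
          10 := by
      intro t ht
      rw [Finset.mem_filter] at ht
      have ht0 : t ≠ 0 := by
        rintro rfl
        apply h2c
        rw [← ht.2, map_zero]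
      rw [show (10 : ℕ) = Fintype.card L + 1 by rw [cL], ← card_norm h2L hη ht0]
      congr 1
      ext w
      simp only [Finset.mem_filter, Finset.mem_univ, true_and]
      constructor
      · exact fun h => h.2
      · intro h
        exact ⟨by rw [h]; exact ht.2, h⟩
    rw [Finset.sum_congr rfl h3, Finset.sum_const, smul_eq_mul]
    have h4 := card_fib T hT0 (2 * c)
    rw [cL, hF] at h4
    omega

end irr

section same

/-- two bilinear forms in more than four variables have a common zero on the diagonal -/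
theorem common_zero {F V : Type*} [Field F] [Finite F] [AddCommGroup V] [Module F V]
    [FiniteDimensional F V] (B C : V →ₗ[F] V →ₗ[F] F) (hV : 4 < finrank F V) :
    ∃ v : V, v ≠ 0 ∧ B v v = 0 ∧ C v v = 0 := by
  classical
  letI : Fintype F := Fintype.ofFinite F
  let b := finBasis F V
  let f : (V →ₗ[F] V →ₗ[F] F) → MvPolynomial (Fin (finrank F V)) F := fun B =>
    ∑ i, ∑ j, MvPolynomial.C (B (b i) (b j)) * (MvPolynomial.X i * MvPolynomial.X j)
  have hf : ∀ (B : V →ₗ[F] V →ₗ[F] F) (x : Fin (finrank F V) → F),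
      MvPolynomial.eval x (f B) = B (∑ i, x i • b i) (∑ i, x i • b i) := by
    intro B x
    simp only [f, map_sum, map_mul, MvPolynomial.eval_C, MvPolynomial.eval_X, map_smul,
      LinearMap.sum_apply, LinearMap.smul_apply, smul_eq_mul, Finset.mul_sum]
    rw [Finset.sum_comm]
    apply Finset.sum_congr rfl
    intro i _
    apply Finset.sum_congr rfl
    intro j _
    ring
  have hdeg : ∀ B : V →ₗ[F] V →ₗ[F] F, (f B).totalDegree ≤ 2 := by
    intro B
    refine MvPolynomial.totalDegree_finsetSum_le fun i _ => ?_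
    refine MvPolynomial.totalDegree_finsetSum_le fun j _ => ?_
    refine (MvPolynomial.totalDegree_mul _ _).trans ?_
    rw [MvPolynomial.totalDegree_C, zero_add]
    refine (MvPolynomial.totalDegree_mul _ _).trans ?_
    rw [MvPolynomial.totalDegree_X, MvPolynomial.totalDegree_X]
  obtain ⟨p, hp⟩ := CharP.exists F
  haveI := hp
  have hpp : p.Prime :=
    (CharP.char_is_prime_or_zero F p).resolve_right (CharP.char_ne_zero_of_finite F p)
  have h1 := char_dvd_card_solutions_of_add_lt (σ := Fin (finrank F V)) (K := F) p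
    (f₁ := f B) (f₂ := f C) (by
      rw [Fintype.card_fin]
      have := hdeg B
      have := hdeg C
      omega)
  have h0 : 0 < Fintype.card {x : Fin (finrank F V) → F //
      MvPolynomial.eval x (f B) = 0 ∧ MvPolynomial.eval x (f C) = 0} := by
    rw [Fintype.card_pos_iff]
    refine ⟨⟨0, ?_, ?_⟩⟩ <;> rw [hf] <;> simp
  have h2 : 1 < Fintype.card {x : Fin (finrank F V) → F //
      MvPolynomial.eval x (f B) = 0 ∧ MvPolynomial.eval x (f C) = 0} :=
    lt_of_lt_of_le hpp.one_lt (Nat.le_of_dvd h0 h1)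
  rw [Fintype.one_lt_card_iff] at h2
  obtain ⟨x, y, hxy⟩ := h2
  have h3 : ∃ z : Fin (finrank F V) → F, z ≠ 0 ∧
      MvPolynomial.eval z (f B) = 0 ∧ MvPolynomial.eval z (f C) = 0 := by
    by_cases hx : x.1 = 0
    · exact ⟨y.1, fun h => hxy (Subtype.ext (hx.trans h.symm)), y.2⟩
    · exact ⟨x.1, hx, x.2⟩
  obtain ⟨z, hz, h4, h5⟩ := h3
  refine ⟨∑ i, z i • b i, ?_, by rw [← hf]; exact h4, by rw [← hf]; exact h5⟩
  intro h
  apply hz
  funext i
  exact Fintype.linearIndependent_iff.1 b.linearIndependent z h i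

variable {F V : Type*} [Field F] [AddCommGroup V] [Module F V] (S : QSp F V)

/-- an isometry of order five without fixed vectors -/
theorem ObsP_order_five [Finite F] (hF2 : (2 : F) ≠ 0) [FiniteDimensional F V]
    (hV : finrank F V = 8) {s r g : V ≃ₗ[F] V} (hr : r ∈ S.O) (hg : g ∈ S.O)
    (hsr : (∀ x, s x = r x) ∨ ∀ x, s x = - r x) (h5 : ∀ x, (r ^ 5) x = x)
    (hfix : ∀ x, r x = x → x = 0) : ObsP S s (g * s * g⁻¹) := by
  -- the sum of the powers is zero
  have hsum : ∀ x, x + r x + (r ^ 2) x + (r ^ 3) x + (r ^ 4) x = 0 := by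
    intro x
    apply hfix
    have e1 : ∀ k : ℕ, r ((r ^ k) x) = (r ^ (k + 1)) x := fun k => by rw [pow_succ']; rfl
    have e2 := e1 1
    have e3 := e1 2
    have e4 := e1 3
    have e5 := e1 4
    rw [pow_one] at e2
    rw [map_add, map_add, map_add, map_add, e2, e3, e4, e5, h5]
    abel
  obtain ⟨v, hv, hBv, hCv⟩ := common_zero S.B (S.B ∘ₗ (r : V →ₗ[F] V)) (by omega)
  have hCv' : S.B (r v) v = 0 := hCv
  have hQv : S.Q v = 0 := Q_zero_of_B S hF2 hBv
  have hrp : ∀ k : ℕ, r ^ k ∈ S.O := fun k => S.O.pow_mem hr k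
  have hmul : ∀ (k l : ℕ) (x : V), (r ^ k) ((r ^ l) x) = (r ^ (k + l)) x := by
    intro k l x
    rw [pow_add]; rfl
  have h4 : S.B ((r ^ 4) v) v = 0 := by
    have h1 := S.O_B hr ((r ^ 4) v) v
    have h3 : r ((r ^ 4) v) = v := by
      have := hmul 1 4 v
      rw [pow_one] at this
      rw [this]
      exact h5 v
    rw [← h1, h3, Bsymm, hCv']
  have h3 : S.B ((r ^ 3) v) v = S.B ((r ^ 2) v) v := by
    have h1 := S.O_B (hrp 2) ((r ^ 3) v) v
    rw [hmul] at h1
    have h3 : (r ^ (2 + 3)) v = v := h5 v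
    rw [← h1, h3, Bsymm]
  have h2 : S.B ((r ^ 2) v) v = 0 := by
    have h1 := congrArg (fun w => S.B w v) (hsum v)
    simp only [map_add, LinearMap.add_apply, map_zero, LinearMap.zero_apply] at h1
    rw [hBv, hCv', h3, h4] at h1
    have h6 : (2 : F) * S.B ((r ^ 2) v) v = 0 := by linear_combination h1
    exact (mul_eq_zero.1 h6).resolve_left hF2
  have hmod : ∀ (k : ℕ) (x : V), (r ^ k) x = (r ^ (k % 5)) x := by
    intro k x
    have h6 : ∀ (n : ℕ) (x : V), (r ^ (5 * n)) x = x := by
      intro n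
      induction n with
      | zero => intro x; rfl
      | succ n ih =>
        intro x
        rw [show 5 * (n + 1) = 5 * n + 5 by ring, ← hmul, h5, ih]
    conv_lhs => rw [← Nat.div_add_mod k 5]
    rw [← hmul, h6]
  have hall : ∀ k : ℕ, S.B ((r ^ k) v) v = 0 := by
    intro k
    rw [hmod]
    have hk : k % 5 < 5 := Nat.mod_lt _ (by norm_num)
    interval_cases k % 5
    · exact hBv
    · rw [pow_one]; exact hCv'
    · exact h2
    · rw [h3]; exact h2
    · exact h4
  have hkl : ∀ k l : ℕ, S.B ((r ^ k) v) ((r ^ l) v) = 0 := by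
    have hle : ∀ k l : ℕ, l ≤ k → S.B ((r ^ k) v) ((r ^ l) v) = 0 := by
      intro k l h
      obtain ⟨n, rfl⟩ := Nat.exists_eq_add_of_le h
      rw [← hmul, S.O_B (hrp l)]
      exact hall n
    intro k l
    rcases le_total l k with h | h
    · exact hle k l h
    · rw [Bsymm]; exact hle l k h
  obtain ⟨W, hW⟩ : ∃ W : Submodule F V, W = Submodule.span F (Set.range fun k : ℕ => (r ^ k) v) :=
    ⟨_, rfl⟩
  have hWr : ∀ x ∈ W, r x ∈ W := by
    intro x hx
    rw [hW] at hx ⊢
    induction hx using Submodule.span_induction with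
    | mem x hx =>
      obtain ⟨k, rfl⟩ := hx
      refine Submodule.subset_span ⟨k + 1, ?_⟩
      change (r ^ (k + 1)) v = r ((r ^ k) v)
      rw [pow_succ']; rfl
    | zero => rw [map_zero]; exact Submodule.zero_mem _
    | add x y _ _ hx hy => rw [map_add]; exact Submodule.add_mem _ hx hy
    | smul c x _ hx => rw [map_smul]; exact Submodule.smul_mem _ _ hx
  have hWs : ∀ x ∈ W, s x ∈ W := by
    intro x hx
    rcases hsr with h | h
    · rw [h]; exact hWr x hx
    · rw [h]; exact W.neg_mem (hWr x hx)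
  have hvW : v ∈ W := by
    rw [hW]
    exact Submodule.subset_span ⟨0, rfl⟩
  have hW0 : W ≠ ⊥ := by
    intro h
    rw [h, Submodule.mem_bot] at hvW
    exact hv hvW
  have hB : ∀ x ∈ W, ∀ y ∈ W, S.B x y = 0 := by
    intro x hx y hy
    rw [hW] at hx hy
    induction hx using Submodule.span_induction with
    | mem x hx =>
      obtain ⟨k, rfl⟩ := hx
      induction hy using Submodule.span_induction with
      | mem y hy =>
        obtain ⟨l, rfl⟩ := hy
        exact hkl k l
      | zero => rw [map_zero]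
      | add a b _ _ ha hb => rw [map_add, ha, hb, add_zero]
      | smul c a _ ha => rw [map_smul, ha, smul_zero]
    | zero => rw [map_zero, LinearMap.zero_apply]
    | add a b _ _ ha hb => rw [map_add, LinearMap.add_apply, ha, hb, add_zero]
    | smul c a _ ha => rw [map_smul, LinearMap.smul_apply, ha, smul_zero]
  have hts : ∀ x ∈ W, S.Q x = 0 := fun x hx => Q_zero_of_B S hF2 (hB x hx x hx)
  by_cases hsmall : 2 * finrank F W + 3 ≤ finrank F V
  · exact ObsP_small S hF2 (by omega) hW0 hWs hsmall
  · exact ObsP_sing S hF2 (by omega) hg hWs (by omega) hts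

end same

section final
variable {F V : Type*} [Field F] [AddCommGroup V] [Module F V]

/-- dimension eight over the field of three elements -/
theorem ObsP_three [Finite F] (hF : Nat.card F = 3) (S : QSp F V) (hV : finrank F V = 8)
    {s g : V ≃ₗ[F] V} (hs : s ∈ S.Om) (hg : g ∈ S.O)
    (X : Submodule F V) (hXs : ∀ x ∈ X, s x ∈ X) (hXm : finrank F X = 4)
    (hX : X ⊓ perp S X = ⊥)
    (h3 : ∀ Y : Submodule F V, Y ≤ X → (∀ y ∈ Y, s y ∈ Y) → Y = ⊥ ∨ Y = X)
    (h4 : ∀ Y : Submodule F V, Y ≤ perp S X → (∀ y ∈ Y, s y ∈ Y) → Y = ⊥ ∨ Y = perp S X) :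
    ObsP S s (g * s * g⁻¹) := by
  classical
  letI : Fintype F := Fintype.ofFinite F
  rw [Nat.card_eq_fintype_card] at hF
  have : FiniteDimensional F V := Module.finite_of_finrank_pos (by omega)
  haveI : Finite V := Module.finite_of_finite F
  letI : Fintype V := Fintype.ofFinite V
  obtain ⟨-, hF2, -, -⟩ := univ_three hF
  have hsO := S.Om_le hs
  obtain ⟨Y, hY⟩ : ∃ Y, Y = perp S X := ⟨_, rfl⟩
  have hYs := perp_inv S hsO hXs
  have hYd := finrank_perp S X
  have hYp : Y ⊓ perp S Y = ⊥ := by
    rw [hY, perp_perp, inf_comm]; exact hX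
  have hXp := hX
  rw [← hY] at hYs hYd h4 hX
  have hY4 : finrank F Y = 4 := by omega
  obtain ⟨px, nx⟩ := eight_irr hF (sub S X hXp) (res s X hXs) (res_mem S hsO X hXp hXs)
    (res_irr X hXs h3) hXm
  obtain ⟨py, ny⟩ := eight_irr hF (sub S Y hYp) (res s Y hYs) (res_mem S hsO Y hYp hYs)
    (res_irr Y hYs h4) hY4
  have hcompl : IsCompl X Y := by
    apply IsCompl.of_eq hX
    apply Submodule.eq_top_of_finrank_eq
    have := Submodule.finrank_sup_add_finrank_inf_eq X Y
    rw [hX, finrank_bot] at this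
    omega
  have hdec : ∀ v : V, ∃ x ∈ X, ∃ y ∈ Y, v = x + y := by
    intro v
    have : v ∈ X ⊔ Y := by rw [hcompl.sup_eq_top]; trivial
    obtain ⟨x, hx, y, hy, h⟩ := Submodule.mem_sup.1 this
    exact ⟨x, hx, y, hy, h.symm⟩
  have horth : ∀ x ∈ X, ∀ y ∈ Y, S.B x y = 0 := by
    intro x hx y hy
    rw [hY] at hy
    rw [Bsymm]
    exact hy x hx
  -- powers of the restrictions
  have hpow : ∀ (Z : Submodule F V) (hZ : ∀ x ∈ Z, s x ∈ Z) (k : ℕ) (x : Z),
      (((res s Z hZ) ^ k) x : Z).1 = (s ^ k) x.1 := by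
    intro Z hZ k
    induction k with
    | zero => intro x; rfl
    | succ k ih =>
      intro x
      rw [pow_succ, pow_succ]
      change (((res s Z hZ) ^ k) (res s Z hZ x) : Z).1 = (s ^ k) (s x.1)
      rw [ih]; rfl
  have cardZ : ∀ Z : Submodule F V, finrank F Z = 4 → Nat.card Z = 81 := by
    intro Z hZ
    rw [Nat.card_eq_fintype_card, Module.card_eq_pow_finrank (K := F), hF, hZ]; norm_num
  have hX5 : (∀ x ∈ X, (s ^ 5) x = x) ∨ ∀ x ∈ X, (s ^ 5) x = -x := by
    rcases px with h | h
    · left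
      intro x hx
      rw [← hpow X hXs 5 ⟨x, hx⟩, h]
    · right
      intro x hx
      rw [← hpow X hXs 5 ⟨x, hx⟩, h]; rfl
  have hY5 : (∀ x ∈ Y, (s ^ 5) x = x) ∨ ∀ x ∈ Y, (s ^ 5) x = -x := by
    rcases py with h | h
    · left
      intro x hx
      rw [← hpow Y hYs 5 ⟨x, hx⟩, h]
    · right
      intro x hx
      rw [← hpow Y hYs 5 ⟨x, hx⟩, h]; rfl
  -- no fixed vectors
  have hnofix : ∀ ε : F, (ε = 1 ∨ ε = -1) → ∀ x : V, s x = ε • x → x = 0 := by
    intro ε hε x hx
    obtain ⟨a, ha, b, hb, rfl⟩ := hdec x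
    have hab : s a = ε • a ∧ s b = ε • b := by
      have h1 : s a - ε • a = ε • b - s b := by
        rw [map_add, smul_add] at hx
        rw [sub_eq_sub_iff_add_eq_add, hx]; abel
      have h5 : s a - ε • a ∈ X ⊓ Y := by
        refine ⟨X.sub_mem (hXs a ha) (X.smul_mem ε ha), ?_⟩
        rw [h1]
        exact Y.sub_mem (Y.smul_mem ε hb) (hYs b hb)
      rw [hX, Submodule.mem_bot] at h5
      have h6 : ε • b - s b = 0 := by rw [← h1]; exact h5
      exact ⟨sub_eq_zero.1 h5, (sub_eq_zero.1 h6).symm⟩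
    have key : ∀ (Z : Submodule F V), finrank F Z = 4 →
        (∀ Y : Submodule F V, Y ≤ Z → (∀ y ∈ Y, s y ∈ Y) → Y = ⊥ ∨ Y = Z) →
        ∀ a ∈ Z, s a = ε • a → a = 0 := by
      intro Z hZ4 hZ a ha hsa
      rcases hZ (Submodule.span F {a}) (by
        rw [Submodule.span_singleton_le_iff_mem]; exact ha) (by
        intro y hy
        obtain ⟨c, rfl⟩ := Submodule.mem_span_singleton.1 hy
        rw [map_smul, hsa]
        exact Submodule.smul_mem _ _ (Submodule.smul_mem _ _
          (Submodule.mem_span_singleton_self a))) with h | h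
      · exact Submodule.span_singleton_eq_bot.1 h
      · by_contra ha0
        have h6 := finrank_span_singleton (K := F) ha0
        rw [h, hZ4] at h6
        omega
    rw [key X hXm h3 a ha hab.1, key Y hY4 h4 b hb hab.2, add_zero]
  rcases hX5 with hx | hx <;> rcases hY5 with hy | hy
  · -- `s ^ 5 = 1`
    refine ObsP_order_five S hF2 hV hsO hg (Or.inl fun x => rfl) ?_ ?_
    · intro v
      obtain ⟨x, hx', y, hy', rfl⟩ := hdec v
      rw [map_add, hx x hx', hy y hy']
    · intro x hx'
      exact hnofix 1 (Or.inl rfl) x (by rw [one_smul]; exact hx')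
  · exact absurd (S.Om.pow_mem hs 5) (not_mem_Om hF S X Y hcompl horth nx ny (cardZ X hXm)
      (cardZ Y hY4) hx hy)
  · exact absurd (S.Om.pow_mem hs 5) (not_mem_Om hF S Y X hcompl.symm
      (fun y hy x hx => by rw [Bsymm]; exact horth x hx y hy) ny nx (cardZ Y hY4)
      (cardZ X hXm) hy hx)
  · -- `s ^ 5 = -1`
    obtain ⟨r, hr⟩ : ∃ r : V ≃ₗ[F] V, r = LinearEquiv.neg F * s := ⟨_, rfl⟩
    have hrs : ∀ x, r x = - s x := fun x => by rw [hr]; rfl
    have hrO : r ∈ S.O := by
      intro x
      rw [hrs, Qneg]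
      exact hsO x
    have hrp : ∀ (k : ℕ) (x : V), (r ^ (2 * k + 1)) x = - (s ^ (2 * k + 1)) x := by
      intro k
      induction k with
      | zero => intro x; exact hrs x
      | succ k ih =>
        intro x
        rw [show 2 * (k + 1) + 1 = (2 * k + 1) + 2 by ring, pow_add, pow_add]
        change (r ^ (2 * k + 1)) (r (r x)) = - (s ^ (2 * k + 1)) (s (s x))
        have e : r (r x) = s (s x) := by rw [hrs, hrs, map_neg, neg_neg]
        rw [ih, e]
    refine ObsP_order_five S hF2 hV hrO hg (Or.inr fun x => by rw [hrs, neg_neg]) ?_ ?_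
    · intro v
      rw [hrp 2 v]
      obtain ⟨x, hx', y, hy', rfl⟩ := hdec v
      rw [map_add]
      rw [show 2 * 2 + 1 = 5 by norm_num, hx x hx', hy y hy']
      abel
    · intro x hx'
      rw [hrs] at hx'
      exact hnofix (-1) (Or.inr rfl) x (by
        rw [neg_smul, one_smul]
        exact neg_eq_iff_eq_neg.1 hx')

theorem eight_final [Finite F] (hF : Nat.card F = 3) (hV : finrank F V = 8)
    (Q : QuadraticForm F V) (hQ : Nondeg Q)
    (hplus : ∃ U : Submodule F V, (∀ x ∈ U, Q x = 0) ∧ finrank F U = 4) :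
    3 ≤ uniformDomination (POmega Q) := by
  have : FiniteDimensional F V := Module.finite_of_finrank_pos (by omega)
  have h2 : (2 : F) ≠ 0 := by
    classical
    letI : Fintype F := Fintype.ofFinite F
    rw [Nat.card_eq_fintype_card] at hF
    exact (univ_three hF).2.1
  -- from the obstruction to the generation statement
  have key : ∀ (a b : Omega Q) (H : Subgroup (V ≃ₗ[F] V)), scalarGroup F V ≤ H → a.1 ∈ H →
      b.1 ∈ H → ¬ Omega Q ≤ H →
      Subgroup.closure {(QuotientGroup.mk a : POmega Q), QuotientGroup.mk b} ≠ ⊤ := by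
    intro a b H hH ha hb hne htop
    apply hne
    intro x hx
    have h1 : (QuotientGroup.mk ⟨x, hx⟩ : POmega Q) ∈
        Subgroup.closure {(QuotientGroup.mk a : POmega Q), QuotientGroup.mk b} := by
      rw [htop]; trivial
    have h3 : Subgroup.closure {(QuotientGroup.mk a : POmega Q), QuotientGroup.mk b} =
        (Subgroup.closure {a, b}).map (QuotientGroup.mk' (scalarsIn Q)) := by
      rw [MonoidHom.map_closure, Set.image_pair]; rfl
    rw [h3] at h1
    obtain ⟨y, hy, hyx⟩ := h1
    have h4 : Subgroup.closure {a, b} ≤ H.subgroupOf (Omega Q) := by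
      rw [Subgroup.closure_le]
      rintro z (rfl | rfl)
      · exact ha
      · exact hb
    have h5 : y.1 ∈ H := h4 hy
    have h6 : y⁻¹ * ⟨x, hx⟩ ∈ scalarsIn Q := QuotientGroup.eq.1 hyx
    have h7 : (y⁻¹ * ⟨x, hx⟩ : Omega Q).1 ∈ H := hH h6
    have h8 : x = y.1 * (y⁻¹ * ⟨x, hx⟩ : Omega Q).1 := by
      change x = y.1 * (y.1⁻¹ * x)
      rw [mul_inv_cancel_left]
    rw [h8]
    exact H.mul_mem h5 h7
  apply three_le_uniformDomination
  intro s g
  induction s using QuotientGroup.induction_on with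
  | H s =>
    induction g using QuotientGroup.induction_on with
    | H g =>
      have hs := (toQSp Q hQ).Om_le s.2
      have hg := (toQSp Q hQ).Om_le g.2
      have hobs : ObsP (toQSp Q hQ) s.1 (g.1 * s.1 * g.1⁻¹) := by
        rcases structure_cases (toQSp Q hQ) h2 4 le_rfl (by decide) hV hs hg
          hplus with h | ⟨X, a1, a2, a3, a4, a5⟩
        · exact h
        · exact ObsP_three hF (toQSp Q hQ) hV s.2 hg X a1 a2 a3 a4 a5
      obtain ⟨k, hk, hks, ⟨H, b1, b2, b3, b4⟩, ⟨H', c1, c2, c3, c4⟩⟩ := hobs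
      refine ⟨QuotientGroup.mk ⟨k, hk⟩, ?_, key ⟨k, hk⟩ s H b1 b2 b3 b4,
        key ⟨k, hk⟩ (g * s * g⁻¹) H' c1 c2 c3 c4⟩
      intro h1
      exact hks ((QuotientGroup.eq_one_iff (⟨k, hk⟩ : Omega Q)).1 h1)

end final

end Pool.Agent.OmegaPlus
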