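import Mathlib

set_option autoImplicit false

namespace Pool.Agent.OmegaPlus

/-- `Q` vanishes on a subspace of dimension `m` (in dimension `2 m`: `Q` is of plus type) -/
def PlusType {F V : Type*} [Field F] [AddCommGroup V] [Module F V] (Q : QuadraticForm F V)
    (m : ℕ) : Prop :=
  ∃ U : Submodule F V, (∀ x ∈ U, Q x = 0) ∧ Module.finrank F U = m

end Pool.Agent.OmegaPlus
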